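import Pool.Agent.MP_ddc23f_ag.H75.Curve

/-! The configuration of 28 points and the septics through it. -/

namespace Pool.Agent.MP_ddc23f_ag.H75

open MvPolynomial

/-- The nine-dimensional space of septics through the configuration. -/
def Gf {R : Type} [CommRing R] (c : Fin 9 → R) (x y z : R) : R :=
  c 0 * (x ^ 2 * (y ^ 5 - z ^ 5)) + c 1 * (y ^ 2 * (z ^ 5 - x ^ 5))
    + c 2 * (z ^ 2 * (x ^ 5 - y ^ 5))
    + c 3 * (x * y * (z ^ 5 - x ^ 5)) + c 4 * (x * y * (y ^ 5 - z ^ 5))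
    + c 5 * (x * z * (y ^ 5 - z ^ 5)) + c 6 * (x * z * (x ^ 5 - y ^ 5))
    + c 7 * (y * z * (z ^ 5 - x ^ 5)) + c 8 * (y * z * (x ^ 5 - y ^ 5))

variable {k : Type} [Field k]

lemma five {ζ : k} (hζ : IsPrimitiveRoot ζ 5) (s0 s1 s2 s3 s4 : k)
    (h : ∀ u : k, u ^ 5 = 1 → s0 + s1 * u + s2 * u ^ 2 + s3 * u ^ 3 + s4 * u ^ 4 = 0) :
    s0 = 0 ∧ s1 = 0 ∧ s2 = 0 ∧ s3 = 0 ∧ s4 = 0 := by
  classical
  let P : Polynomial k := Polynomial.C s0 + Polynomial.C s1 * Polynomial.X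
    + Polynomial.C s2 * Polynomial.X ^ 2 + Polynomial.C s3 * Polynomial.X ^ 3
    + Polynomial.C s4 * Polynomial.X ^ 4
  have hd : P.natDegree ≤ 4 := by
    simp only [P]; compute_degree
  have hP : P = 0 := by
    refine Polynomial.eq_zero_of_natDegree_lt_card_of_eval_eq_zero P
      (f := fun i : Fin 5 => ζ ^ (i : ℕ)) (fun i j e => Fin.ext (hζ.pow_inj i.2 j.2 e))
      (fun i => ?_) (by simp; omega)
    have := h (ζ ^ (i : ℕ)) (by rw [← pow_mul, mul_comm, pow_mul, hζ.pow_eq_one, one_pow])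
    simpa [P] using this
  have c0 := congrArg (fun q => Polynomial.coeff q 0) hP
  have c1 := congrArg (fun q => Polynomial.coeff q 1) hP
  have c2 := congrArg (fun q => Polynomial.coeff q 2) hP
  have c3 := congrArg (fun q => Polynomial.coeff q 3) hP
  have c4 := congrArg (fun q => Polynomial.coeff q 4) hP
  simp [P, Polynomial.coeff_X, Polynomial.coeff_C] at c0 c1 c2 c3 c4
  exact ⟨c0, c1, c2, c3, c4⟩

/-- The general ternary septic. -/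
def gen7 (c : ℕ → ℕ → k) (x y z : k) : k :=
  c 0 0 * (x ^ 7 * y ^ 0 * z ^ 0) + c 0 1 * (x ^ 6 * y ^ 0 * z ^ 1) + c 0 2 * (x ^ 5 * y ^ 0 * z ^ 2) + c 0 3 * (x ^ 4 * y ^ 0 * z ^ 3) + c 0 4 * (x ^ 3 * y ^ 0 * z ^ 4) + c 0 5 * (x ^ 2 * y ^ 0 * z ^ 5) + c 0 6 * (x ^ 1 * y ^ 0 * z ^ 6) + c 0 7 * (x ^ 0 * y ^ 0 * z ^ 7) +
  c 1 0 * (x ^ 6 * y ^ 1 * z ^ 0) + c 1 1 * (x ^ 5 * y ^ 1 * z ^ 1) + c 1 2 * (x ^ 4 * y ^ 1 * z ^ 2) + c 1 3 * (x ^ 3 * y ^ 1 * z ^ 3) + c 1 4 * (x ^ 2 * y ^ 1 * z ^ 4) + c 1 5 * (x ^ 1 * y ^ 1 * z ^ 5) + c 1 6 * (x ^ 0 * y ^ 1 * z ^ 6) +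
  c 2 0 * (x ^ 5 * y ^ 2 * z ^ 0) + c 2 1 * (x ^ 4 * y ^ 2 * z ^ 1) + c 2 2 * (x ^ 3 * y ^ 2 * z ^ 2) + c 2 3 * (x ^ 2 * y ^ 2 * z ^ 3) + c 2 4 * (x ^ 1 * y ^ 2 * z ^ 4) + c 2 5 * (x ^ 0 * y ^ 2 * z ^ 5) +
  c 3 0 * (x ^ 4 * y ^ 3 * z ^ 0) + c 3 1 * (x ^ 3 * y ^ 3 * z ^ 1) + c 3 2 * (x ^ 2 * y ^ 3 * z ^ 2) + c 3 3 * (x ^ 1 * y ^ 3 * z ^ 3) + c 3 4 * (x ^ 0 * y ^ 3 * z ^ 4) +
  c 4 0 * (x ^ 3 * y ^ 4 * z ^ 0) + c 4 1 * (x ^ 2 * y ^ 4 * z ^ 1) + c 4 2 * (x ^ 1 * y ^ 4 * z ^ 2) + c 4 3 * (x ^ 0 * y ^ 4 * z ^ 3) +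
  c 5 0 * (x ^ 2 * y ^ 5 * z ^ 0) + c 5 1 * (x ^ 1 * y ^ 5 * z ^ 1) + c 5 2 * (x ^ 0 * y ^ 5 * z ^ 2) +
  c 6 0 * (x ^ 1 * y ^ 6 * z ^ 0) + c 6 1 * (x ^ 0 * y ^ 6 * z ^ 1) +
  c 7 0 * (x ^ 0 * y ^ 7 * z ^ 0)

lemma gen7_struct {ζ : k} (hζ : IsPrimitiveRoot ζ 5) (c : ℕ → ℕ → k)
    (h : ∀ u v : k, u ^ 5 = 1 → v ^ 5 = 1 → gen7 c 1 u v = 0)
    (h0 : gen7 c 1 0 0 = 0) (h1 : gen7 c 0 1 0 = 0) (h2 : gen7 c 0 0 1 = 0) (x y z : k) :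
    gen7 c x y z = Gf ![c 5 0, c 2 5, c 0 2, -c 1 0, c 6 0, -c 0 6, c 0 1, c 1 6, -c 6 1] x y z := by
  have e0 : c 0 0 = 0 := by simpa [gen7] using h0
  have e1 : c 7 0 = 0 := by simpa [gen7] using h1
  have e2 : c 0 7 = 0 := by simpa [gen7] using h2
  have s : ∀ v : k, v ^ 5 = 1 → _ := fun v hv => five hζ
    (c 0 0 * v ^ 0 + c 0 1 * v ^ 1 + c 0 2 * v ^ 2 + c 0 3 * v ^ 3 + c 0 4 * v ^ 4 + c 0 5 * v ^ 5 + c 0 6 * v ^ 6 + c 0 7 * v ^ 7 + c 5 0 * v ^ 0 + c 5 1 * v ^ 1 + c 5 2 * v ^ 2)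
    (c 1 0 * v ^ 0 + c 1 1 * v ^ 1 + c 1 2 * v ^ 2 + c 1 3 * v ^ 3 + c 1 4 * v ^ 4 + c 1 5 * v ^ 5 + c 1 6 * v ^ 6 + c 6 0 * v ^ 0 + c 6 1 * v ^ 1)
    (c 2 0 * v ^ 0 + c 2 1 * v ^ 1 + c 2 2 * v ^ 2 + c 2 3 * v ^ 3 + c 2 4 * v ^ 4 + c 2 5 * v ^ 5 + c 7 0 * v ^ 0)
    (c 3 0 * v ^ 0 + c 3 1 * v ^ 1 + c 3 2 * v ^ 2 + c 3 3 * v ^ 3 + c 3 4 * v ^ 4)
    (c 4 0 * v ^ 0 + c 4 1 * v ^ 1 + c 4 2 * v ^ 2 + c 4 3 * v ^ 3)
    (fun u hu => by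
      have := h u v hu hv
      simp only [gen7] at this
      linear_combination this - (c 5 0 * u ^ 0 * v ^ 0 + c 5 1 * u ^ 0 * v ^ 1 + c 5 2 * u ^ 0 * v ^ 2 + c 6 0 * u ^ 1 * v ^ 0 + c 6 1 * u ^ 1 * v ^ 1 + c 7 0 * u ^ 2 * v ^ 0) * hu)
  have t0 := five hζ (c 0 0 + c 0 5 + c 5 0) (c 0 1 + c 0 6 + c 5 1) (c 0 2 + c 0 7 + c 5 2) (c 0 3) (c 0 4)
    (fun v hv => by linear_combination (s v hv).1 - (c 0 5 * v ^ 0 + c 0 6 * v ^ 1 + c 0 7 * v ^ 2) * hv)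
  have t1 := five hζ (c 1 0 + c 1 5 + c 6 0) (c 1 1 + c 1 6 + c 6 1) (c 1 2) (c 1 3) (c 1 4)
    (fun v hv => by linear_combination (s v hv).2.1 - (c 1 5 * v ^ 0 + c 1 6 * v ^ 1) * hv)
  have t2 := five hζ (c 2 0 + c 2 5 + c 7 0) (c 2 1) (c 2 2) (c 2 3) (c 2 4)
    (fun v hv => by linear_combination (s v hv).2.2.1 - (c 2 5 * v ^ 0) * hv)
  have t3 := five hζ (c 3 0) (c 3 1) (c 3 2) (c 3 3) (c 3 4)
    (fun v hv => by linear_combination (s v hv).2.2.2.1)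
  have t4 := five hζ (c 4 0) (c 4 1) (c 4 2) (c 4 3) (0)
    (fun v hv => by linear_combination (s v hv).2.2.2.2)
  simp only [gen7, Gf, Matrix.cons_val]
  linear_combination (x ^ 4 * y ^ 0 * z ^ 3) * t0.2.2.2.1 +
    (x ^ 3 * y ^ 0 * z ^ 4) * t0.2.2.2.2 +
    (x ^ 4 * y ^ 1 * z ^ 2) * t1.2.2.1 +
    (x ^ 3 * y ^ 1 * z ^ 3) * t1.2.2.2.1 +
    (x ^ 2 * y ^ 1 * z ^ 4) * t1.2.2.2.2 +
    (x ^ 4 * y ^ 2 * z ^ 1) * t2.2.1 +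
    (x ^ 3 * y ^ 2 * z ^ 2) * t2.2.2.1 +
    (x ^ 2 * y ^ 2 * z ^ 3) * t2.2.2.2.1 +
    (x ^ 1 * y ^ 2 * z ^ 4) * t2.2.2.2.2 +
    (x ^ 4 * y ^ 3 * z ^ 0) * t3.1 +
    (x ^ 3 * y ^ 3 * z ^ 1) * t3.2.1 +
    (x ^ 2 * y ^ 3 * z ^ 2) * t3.2.2.1 +
    (x ^ 1 * y ^ 3 * z ^ 3) * t3.2.2.2.1 +
    (x ^ 0 * y ^ 3 * z ^ 4) * t3.2.2.2.2 +
    (x ^ 3 * y ^ 4 * z ^ 0) * t4.1 +
    (x ^ 2 * y ^ 4 * z ^ 1) * t4.2.1 +
    (x ^ 1 * y ^ 4 * z ^ 2) * t4.2.2.1 +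
    (x ^ 0 * y ^ 4 * z ^ 3) * t4.2.2.2.1 +
    (x ^ 2 * z ^ 5) * t0.1 +
    (x ^ 7 - x ^ 2 * z ^ 5) * e0 +
    (x * y * z ^ 5) * t1.1 +
    (x * y ^ 5 * z) * t0.2.1 +
    (x ^ 5 * y ^ 2) * t2.1 +
    (y ^ 7 - x ^ 5 * y ^ 2) * e1 +
    (y ^ 5 * z ^ 2) * t0.2.2.1 +
    (z ^ 7 - y ^ 5 * z ^ 2) * e2 +
    (x ^ 5 * y * z) * t1.2.1

lemma hom_rep {F : MvPolynomial (Fin 3) k} {n : ℕ} (hF : F.IsHomogeneous n) :
    ∃ c : ℕ → ℕ → k, F = ∑ j ∈ Finset.range (n + 1), ∑ l ∈ Finset.range (n + 1 - j),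
      C (c j l) * (X 0 ^ (n - j - l) * X 1 ^ j * X 2 ^ l) := by
  classical
  let m : ℕ → ℕ → (Fin 3 →₀ ℕ) := fun j l =>
    Finsupp.single 0 (n - j - l) + Finsupp.single 1 j + Finsupp.single 2 l
  have m0 : ∀ j l, m j l 0 = n - j - l := by simp [m]
  have m1 : ∀ j l, m j l 1 = j := by simp [m]
  have m2 : ∀ j l, m j l 2 = l := by simp [m]
  refine ⟨fun j l => coeff (m j l) F, ?_⟩
  have e : ∀ j l, (C (coeff (m j l) F) * (X 0 ^ (n - j - l) * X 1 ^ j * X 2 ^ l) :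
      MvPolynomial (Fin 3) k) = monomial (m j l) (coeff (m j l) F) := by
    intro j l
    simp only [X_pow_eq_monomial, monomial_mul, C_mul_monomial, mul_one, m]
  simp only [e]
  ext d
  simp only [coeff_sum, coeff_monomial]
  have hdeg : d.degree = d 0 + d 1 + d 2 := by
    rw [Finsupp.degree_eq_sum, Fin.sum_univ_three]
  by_cases hd : d.degree = n
  · have hm : m (d 1) (d 2) = d := by
      ext i; fin_cases i
      · simp only [Fin.zero_eta, m0]; omega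
      · simp only [Fin.mk_one, m1]
      · simp only [Fin.reduceFinMk, m2]
    rw [Finset.sum_eq_single (d 1), Finset.sum_eq_single (d 2), if_pos hm, hm]
    · intro l _ hl
      rw [if_neg]; intro h; exact hl (by rw [← h, m2])
    · intro h; exact absurd (Finset.mem_range.mpr (by omega)) h
    · intro j _ hj
      refine Finset.sum_eq_zero fun l _ => ?_
      rw [if_neg]; intro h; exact hj (by rw [← h, m1])
    · intro h; exact absurd (Finset.mem_range.mpr (by omega)) h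
  · rw [hF.coeff_eq_zero hd]
    symm
    refine Finset.sum_eq_zero fun j hj => Finset.sum_eq_zero fun l hl => ?_
    rw [if_neg]
    intro h
    apply hd
    rw [Finset.mem_range] at hj hl
    rw [hdeg, ← h, m0, m1, m2]; omega

lemma hom7_rep {F : MvPolynomial (Fin 3) k} (hF : F.IsHomogeneous 7) :
    ∃ c : ℕ → ℕ → k, ∀ w : Fin 3 → k, eval w F = gen7 c (w 0) (w 1) (w 2) := by
  obtain ⟨c, hc⟩ := hom_rep hF
  refine ⟨c, fun w => ?_⟩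
  rw [hc]
  simp only [Finset.sum_range_succ, Finset.sum_range_zero, map_add, map_mul, map_pow, eval_C,
    eval_X, map_zero, gen7, Nat.reduceAdd, Nat.reduceSub]
  ring

/-- The polynomial with coefficient vector `c`. -/
noncomputable def Gp (c : Fin 9 → k) : MvPolynomial (Fin 3) k :=
  Gf (fun i => C (c i)) (X 0) (X 1) (X 2)

lemma eval_Gp (c : Fin 9 → k) (w : Fin 3 → k) : eval w (Gp c) = Gf c (w 0) (w 1) (w 2) := by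
  simp only [Gp, Gf, map_add, map_sub, map_mul, map_pow, eval_C, eval_X]

/-- Vectors representing the 28 points. -/
def vec (ζ : k) : (Fin 5 × Fin 5) ⊕ Fin 3 → Fin 3 → k
  | Sum.inl ij => ![1, ζ ^ (ij.1 : ℕ), ζ ^ (ij.2 : ℕ)]
  | Sum.inr i => Pi.single i 1

lemma vec_ne (ζ : k) (j : (Fin 5 × Fin 5) ⊕ Fin 3) : vec ζ j ≠ 0 := by
  intro h
  rcases j with ij | i
  · simpa [vec] using congrFun h 0
  · simpa [vec] using congrFun h i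

open Classical in
/-- The configuration. -/
noncomputable def Zc (ζ : k) : Finset (Projectivization k (Fin 3 → k)) :=
  Finset.univ.image fun j => Projectivization.mk k (vec ζ j) (vec_ne ζ j)

lemma mem_Zc {ζ : k} {z : Projectivization k (Fin 3 → k)} :
    z ∈ Zc ζ ↔ ∃ j, Projectivization.mk k (vec ζ j) (vec_ne ζ j) = z := by
  simp [Zc]

lemma card_Zc (ζ : k) : (Zc ζ).card ≤ 28 := by
  classical
  refine le_trans ?_ (show (Finset.univ : Finset ((Fin 5 × Fin 5) ⊕ Fin 3)).card ≤ 28 by simp)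
  unfold Zc
  convert Finset.card_image_le

lemma mem_IZ {ζ : k} {F : MvPolynomial (Fin 3) k} :
    F ∈ setIdeal (Zc ζ) ↔ ∀ j, F ∈ vecIdeal (vec ζ j) := by
  rw [mem_setIdeal]
  constructor
  · intro h j
    rw [← ptIdeal_mk _ (vec_ne ζ j)]
    exact h _ (mem_Zc.mpr ⟨j, rfl⟩)
  · intro h z hz
    obtain ⟨j, rfl⟩ := mem_Zc.mp hz
    rw [ptIdeal_mk]; exact h j

lemma exists_Gp [Infinite k] {ζ : k} (hζ : IsPrimitiveRoot ζ 5) {F : MvPolynomial (Fin 3) k}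
    (hF : F ∈ degPart (setIdeal (Zc ζ)) 7) : ∃ c, F = Gp c := by
  obtain ⟨h1, h2⟩ := mem_degPart.mp hF
  rw [mem_IZ] at h1
  obtain ⟨c, hc⟩ := hom7_rep h2
  refine ⟨![c 5 0, c 2 5, c 0 2, -c 1 0, c 6 0, -c 0 6, c 0 1, c 1 6, -c 6 1],
    MvPolynomial.funext fun w => ?_⟩
  · rw [hc, eval_Gp]
    refine gen7_struct hζ c (fun u v hu hv => ?_) ?_ ?_ ?_ _ _ _
    · obtain ⟨i, hi, rfl⟩ := hζ.eq_pow_of_pow_eq_one hu
      obtain ⟨j, hj, rfl⟩ := hζ.eq_pow_of_pow_eq_one hv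
      have := eval_of_mem_vecIdeal (h1 (Sum.inl (⟨i, hi⟩, ⟨j, hj⟩)))
      rw [hc] at this
      simpa [vec] using this
    · have := eval_of_mem_vecIdeal (h1 (Sum.inr 0))
      rw [hc] at this
      simpa [vec] using this
    · have := eval_of_mem_vecIdeal (h1 (Sum.inr 1))
      rw [hc] at this
      simpa [vec] using this
    · have := eval_of_mem_vecIdeal (h1 (Sum.inr 2))
      rw [hc] at this
      simpa [vec] using this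

lemma Qp_mem_IZ {ζ : k} (hζ : IsPrimitiveRoot ζ 5) (p : Fin 3 → k) :
    Qp p ∈ setIdeal (Zc ζ) := by
  rw [mem_IZ]
  intro j
  refine mem_vecIdeal_of_hom (Qp_hom p) ?_
  rw [eval_Qp]
  have hp : ∀ i : ℕ, (ζ ^ i) ^ 5 = 1 := fun i => by
    rw [← pow_mul, mul_comm, pow_mul, hζ.pow_eq_one, one_pow]
  rcases j with ij | i
  · simp [vec, Qf, hp]
  · fin_cases i <;> simp [vec, Qf]

end Pool.Agent.MP_ddc23f_ag.H75
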