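import Pool.Agent.MP_ddc23f_ag.H75.Defs

/-! Scaling lemmas. -/

namespace Pool.Agent.MP_ddc23f_ag.H75

open MvPolynomial

variable {k : Type} [Field k]

lemma eval_smul_hom {σ : Type} {F : MvPolynomial σ k} {n : ℕ} (hF : F.IsHomogeneous n) (t : k)
    (p : σ → k) : eval (t • p) F = t ^ n * eval p F := by
  classical
  conv_lhs => rw [F.as_sum]
  conv_rhs => rw [F.as_sum]
  rw [map_sum, map_sum, Finset.mul_sum]
  refine Finset.sum_congr rfl fun d hd => ?_
  have hdeg : d.degree = n := by
    have := hF (mem_support_iff.mp hd)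
    rw [Finsupp.degree_eq_weight_one]; exact this
  rw [eval_monomial, eval_monomial, ← hdeg, Finsupp.prod, Finsupp.prod, Finsupp.degree_apply,
    ← Finset.prod_pow_eq_pow_sum]
  simp only [Pi.smul_apply, smul_eq_mul, mul_pow, Finset.prod_mul_distrib]
  ring

/-- Restriction of a polynomial to the line through `p`. -/
noncomputable def sig (p : Fin 3 → k) : MvPolynomial (Fin 3) k →ₐ[k] Polynomial k :=
  aeval fun i => Polynomial.C (p i) * Polynomial.X

lemma eval_sig (p : Fin 3 → k) (w : MvPolynomial (Fin 3) k) (t : k) :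
    (sig p w).eval t = eval (t • p) w := by
  induction w using MvPolynomial.induction_on with
  | C a => simp [sig]
  | add f g hf hg => simp [hf, hg]
  | mul_X f i hf =>
    rw [map_mul, Polynomial.eval_mul, hf, map_mul]
    simp only [sig, aeval_X, Polynomial.eval_mul, Polynomial.eval_C, Polynomial.eval_X, eval_X,
      Pi.smul_apply, smul_eq_mul]
    ring

lemma sig_hom [Infinite k] (p : Fin 3 → k) {w : MvPolynomial (Fin 3) k} {n : ℕ}
    (hw : w.IsHomogeneous n) : sig p w = Polynomial.C (eval p w) * Polynomial.X ^ n := by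
  apply Polynomial.funext
  intro t
  rw [eval_sig, eval_smul_hom hw]
  simp only [Polynomial.eval_mul, Polynomial.eval_C, Polynomial.eval_pow, Polynomial.eval_X]
  ring

lemma coeff_sig [Infinite k] (p : Fin 3 → k) (w : MvPolynomial (Fin 3) k) (j : ℕ) :
    (sig p w).coeff j = eval p (homogeneousComponent j w) := by
  conv_lhs => rw [← sum_homogeneousComponent w]
  rw [map_sum, Polynomial.finsetSum_coeff]
  have h : ∀ i, (sig p (homogeneousComponent i w)).coeff j =
      if j = i then eval p (homogeneousComponent i w) else 0 := by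
    intro i
    rw [sig_hom p (homogeneousComponent_isHomogeneous i w), Polynomial.coeff_C_mul_X_pow]
  simp only [h, Finset.sum_ite_eq, Finset.mem_range]
  split_ifs with hj
  · rfl
  · rw [homogeneousComponent_eq_zero _ _ (by omega)]; simp

/-- If `w` vanishes on the line through `p`, so do its homogeneous components. -/
lemma comp_eval_zero [Infinite k] (p : Fin 3 → k) (w : MvPolynomial (Fin 3) k)
    (h : ∀ t : k, eval (t • p) w = 0) (j : ℕ) : eval p (homogeneousComponent j w) = 0 := by
  have : sig p w = 0 := by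
    apply Polynomial.funext
    intro t
    rw [eval_sig, h]; simp
  rw [← coeff_sig, this]; simp

lemma general_of_poly [Infinite k] (Φ : (Fin 3 → k) → Prop) (G : MvPolynomial (Fin 3) k)
    (hG : G ≠ 0) (h : ∀ p, eval p G ≠ 0 → Φ p)
    (hs : ∀ (p : Fin 3 → k) (t : k), t ≠ 0 → Φ (t • p) → Φ p) :
    General fun P : Projectivization k (Fin 3 → k) => Φ P.rep := by
  have : ∃ n, homogeneousComponent n G ≠ 0 := by
    by_contra hc
    push Not at hc
    apply hG
    rw [← sum_homogeneousComponent G]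
    simp [hc]
  obtain ⟨n, hn⟩ := this
  refine ⟨_, n, hn, homogeneousComponent_isHomogeneous n G, fun P hP => ?_⟩
  have h1 : Polynomial.X * sig P.rep G ≠ 0 := by
    refine mul_ne_zero Polynomial.X_ne_zero fun h0 => hP ?_
    rw [← coeff_sig, h0]; simp
  obtain ⟨t, ht⟩ : ∃ t : k, (Polynomial.X * sig P.rep G).eval t ≠ 0 := by
    by_contra hc
    push Not at hc
    exact h1 (Polynomial.funext (by simpa using hc))
  rw [Polynomial.eval_mul, Polynomial.eval_X, eval_sig] at ht
  exact hs _ t (left_ne_zero_of_mul ht) (h _ (right_ne_zero_of_mul ht))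

lemma General.mono {Φ Ψ : Projectivization k (Fin 3 → k) → Prop} (h : General Φ)
    (hh : ∀ P, Φ P → Ψ P) : General Ψ := by
  obtain ⟨G, n, h1, h2, h3⟩ := h
  exact ⟨G, n, h1, h2, fun P hP => hh P (h3 P hP)⟩

/-- The ideal of the line through a vector. -/
noncomputable def vecIdeal (p : Fin 3 → k) : Ideal (MvPolynomial (Fin 3) k) :=
  vanishingIdeal k (Set.range fun t : k => t • p)

lemma mem_vecIdeal {p : Fin 3 → k} {F : MvPolynomial (Fin 3) k} :
    F ∈ vecIdeal p ↔ ∀ t : k, eval (t • p) F = 0 := by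
  simp [vecIdeal, mem_vanishingIdeal_iff]

lemma vecIdeal_smul (p : Fin 3 → k) {t : k} (ht : t ≠ 0) : vecIdeal (t • p) = vecIdeal p := by
  ext F
  rw [mem_vecIdeal, mem_vecIdeal]
  constructor
  · intro h s
    have := h (s * t⁻¹)
    rwa [smul_smul, mul_assoc, inv_mul_cancel₀ ht, mul_one] at this
  · intro h s
    rw [smul_smul]; exact h _

lemma ptIdeal_eq (P : Projectivization k (Fin 3 → k)) : ptIdeal P = vecIdeal P.rep := rfl

lemma rep_mk (v : Fin 3 → k) (hv : v ≠ 0) :
    ∃ t : k, t ≠ 0 ∧ (Projectivization.mk k v hv).rep = t • v := by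
  obtain ⟨a, ha⟩ := Projectivization.exists_smul_eq_mk_rep k v hv
  exact ⟨a, a.ne_zero, by rw [← ha]; rfl⟩

lemma ptIdeal_mk (v : Fin 3 → k) (hv : v ≠ 0) :
    ptIdeal (Projectivization.mk k v hv) = vecIdeal v := by
  obtain ⟨t, ht, h⟩ := rep_mk v hv
  rw [ptIdeal_eq, h, vecIdeal_smul v ht]

lemma mem_vecIdeal_of_hom {p : Fin 3 → k} {F : MvPolynomial (Fin 3) k} {n : ℕ}
    (hF : F.IsHomogeneous n) (h : eval p F = 0) : F ∈ vecIdeal p := by
  rw [mem_vecIdeal]; intro t; rw [eval_smul_hom hF, h, mul_zero]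

lemma eval_of_mem_vecIdeal {p : Fin 3 → k} {F : MvPolynomial (Fin 3) k} (h : F ∈ vecIdeal p) :
    eval p F = 0 := by
  simpa using mem_vecIdeal.mp h 1

lemma mem_degPart {I : Ideal (MvPolynomial (Fin 3) k)} {d : ℕ} {F : MvPolynomial (Fin 3) k} :
    F ∈ degPart I d ↔ F ∈ I ∧ F.IsHomogeneous d := by
  simp [degPart]

lemma mem_setIdeal {Z : Finset (Projectivization k (Fin 3 → k))} {F : MvPolynomial (Fin 3) k} :
    F ∈ setIdeal Z ↔ ∀ z ∈ Z, F ∈ ptIdeal z := by
  simp [setIdeal]

end Pool.Agent.MP_ddc23f_ag.H75
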