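import Pool.Agent.MP_ddc23f_ag.H75.Basic

/-! The curve of degree seven and the special member used for irreducibility. -/

namespace Pool.Agent.MP_ddc23f_ag.H75

open MvPolynomial

/-- The septic through the configuration with a fourfold point at `(a : b : c)`. -/
def Qf {R : Type} [CommRing R] (a b c x y z : R) : R :=
  5 * a ^ 4 * b * c * (x ^ 2 * (y ^ 5 - z ^ 5)) + 5 * a * b ^ 4 * c * (y ^ 2 * (z ^ 5 - x ^ 5))
    + 5 * a * b * c ^ 4 * (z ^ 2 * (x ^ 5 - y ^ 5))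
    - c * (3 * b ^ 5 + 2 * c ^ 5) * (x * y * (z ^ 5 - x ^ 5))
    - c * (3 * a ^ 5 + 2 * c ^ 5) * (x * y * (y ^ 5 - z ^ 5))
    - b * (3 * a ^ 5 + 2 * b ^ 5) * (x * z * (y ^ 5 - z ^ 5))
    - b * (3 * c ^ 5 + 2 * b ^ 5) * (x * z * (x ^ 5 - y ^ 5))
    - a * (3 * b ^ 5 + 2 * a ^ 5) * (y * z * (z ^ 5 - x ^ 5))
    - a * (3 * c ^ 5 + 2 * a ^ 5) * (y * z * (x ^ 5 - y ^ 5))

lemma map_Qf {R S F : Type} [CommRing R] [CommRing S] [FunLike F R S] [RingHomClass F R S]
    (φ : F) (a b c x y z : R) :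
    φ (Qf a b c x y z) = Qf (φ a) (φ b) (φ c) (φ x) (φ y) (φ z) := by
  simp only [Qf, map_add, map_sub, map_mul, map_pow, map_ofNat]

/-- The septic as a polynomial. -/
noncomputable def Qp {R : Type} [CommRing R] (p : Fin 3 → R) : MvPolynomial (Fin 3) R :=
  Qf (C (p 0)) (C (p 1)) (C (p 2)) (X 0) (X 1) (X 2)

lemma map_Qp {R S : Type} [CommRing R] [CommRing S] (φ : R →+* S) (p : Fin 3 → R) :
    MvPolynomial.map φ (Qp p) = Qp fun i => φ (p i) := by
  simp only [Qp, map_Qf, map_C, map_X]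

lemma eval_Qp {R : Type} [CommRing R] (p w : Fin 3 → R) :
    eval w (Qp p) = Qf (p 0) (p 1) (p 2) (w 0) (w 1) (w 2) := by
  simp only [Qp, map_Qf, eval_C, eval_X]

lemma isHom_g {R : Type} [CommRing R] (i j l m : Fin 3) :
    (X i * X j * (X l ^ 5 - X m ^ 5) : MvPolynomial (Fin 3) R).IsHomogeneous 7 :=
  ((isHomogeneous_X R i).mul (isHomogeneous_X R j)).mul
    ((isHomogeneous_X_pow l 5).sub (isHomogeneous_X_pow m 5))

lemma Qp_hom {R : Type} [CommRing R] (p : Fin 3 → R) : (Qp p).IsHomogeneous 7 := by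
  have h : ∀ (r : R) (i j l m : Fin 3),
      (C r * (X i * X j * (X l ^ 5 - X m ^ 5)) : MvPolynomial (Fin 3) R).IsHomogeneous 7 :=
    fun r i j l m => by simpa using (isHomogeneous_C (Fin 3) r).mul (isHom_g i j l m)
  have e : Qp p =
      C (5 * p 0 ^ 4 * p 1 * p 2) * (X 0 * X 0 * (X 1 ^ 5 - X 2 ^ 5))
      + C (5 * p 0 * p 1 ^ 4 * p 2) * (X 1 * X 1 * (X 2 ^ 5 - X 0 ^ 5))
      + C (5 * p 0 * p 1 * p 2 ^ 4) * (X 2 * X 2 * (X 0 ^ 5 - X 1 ^ 5))
      - C (p 2 * (3 * p 1 ^ 5 + 2 * p 2 ^ 5)) * (X 0 * X 1 * (X 2 ^ 5 - X 0 ^ 5))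
      - C (p 2 * (3 * p 0 ^ 5 + 2 * p 2 ^ 5)) * (X 0 * X 1 * (X 1 ^ 5 - X 2 ^ 5))
      - C (p 1 * (3 * p 0 ^ 5 + 2 * p 1 ^ 5)) * (X 0 * X 2 * (X 1 ^ 5 - X 2 ^ 5))
      - C (p 1 * (3 * p 2 ^ 5 + 2 * p 1 ^ 5)) * (X 0 * X 2 * (X 0 ^ 5 - X 1 ^ 5))
      - C (p 0 * (3 * p 1 ^ 5 + 2 * p 0 ^ 5)) * (X 1 * X 2 * (X 2 ^ 5 - X 0 ^ 5))
      - C (p 0 * (3 * p 2 ^ 5 + 2 * p 0 ^ 5)) * (X 1 * X 2 * (X 0 ^ 5 - X 1 ^ 5)) := by
    simp only [Qp, Qf, map_add, map_mul, map_pow, map_ofNat]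
    ring
  rw [e]
  exact ((((((((h _ _ _ _ _).add (h _ _ _ _ _)).add (h _ _ _ _ _)).sub (h _ _ _ _ _)).sub
    (h _ _ _ _ _)).sub (h _ _ _ _ _)).sub (h _ _ _ _ _)).sub (h _ _ _ _ _)).sub (h _ _ _ _ _)

/-- The residual sextic of the member at `(0 : 1 : 2)`. -/
def Sf {R : Type} [CommRing R] (x y z : R) : R :=
  x ^ 5 * (134 * y - 98 * z) + (-128 * y ^ 6 + 96 * y ^ 5 * z - 6 * y * z ^ 5 + 2 * z ^ 6)

lemma Qf_special {R : Type} [CommRing R] (x y z : R) : Qf 0 1 2 x y z = x * Sf x y z := by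
  simp only [Qf, Sf]; ring

lemma deriv_mem_pow {k A : Type} [CommRing k] [CommRing A] [Algebra k A] (D : Derivation k A A)
    (I : Ideal A) (n : ℕ) {f : A} (hf : f ∈ I ^ (n + 1)) : D f ∈ I ^ n := by
  induction n generalizing f with
  | zero => simp
  | succ n ih =>
    rw [pow_succ] at hf
    refine Submodule.mul_induction_on hf (fun a ha b hb => ?_) (fun a b ha hb => ?_)
    · rw [Derivation.leibniz, smul_eq_mul, smul_eq_mul]
      refine add_mem (Ideal.mul_mem_right _ _ ha) ?_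
      rw [pow_succ, mul_comm b]
      exact Ideal.mul_mem_mul (ih ha) hb
    · rw [map_add]; exact add_mem ha hb

lemma deriv_ofNat {k A : Type} [CommRing k] [CommRing A] [Algebra k A] (D : Derivation k A A)
    (n : ℕ) [n.AtLeastTwo] : D (ofNat(n) : A) = 0 := by
  exact D.map_natCast n

lemma Sf_irreducible (Ω : Type) [Field Ω] [CharZero Ω] :
    Irreducible (Sf (X 0) (X 1) (X 2) : MvPolynomial (Fin 3) Ω) := by
  rw [← MulEquiv.irreducible_iff (finSuccEquiv Ω 2)]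
  set L : MvPolynomial (Fin 2) Ω := 134 * X 0 - 98 * X 1 with hL
  set T : MvPolynomial (Fin 2) Ω :=
    -128 * X 0 ^ 6 + 96 * X 0 ^ 5 * X 1 - 6 * X 0 * X 1 ^ 5 + 2 * X 1 ^ 6 with hT
  have e : finSuccEquiv Ω 2 (Sf (X 0) (X 1) (X 2)) =
      Polynomial.C L * Polynomial.X ^ 5 + Polynomial.C T := by
    have h1 : finSuccEquiv Ω 2 (X 1) = Polynomial.C (X 0) := finSuccEquiv_X_succ (j := 0)
    have h2 : finSuccEquiv Ω 2 (X 2) = Polynomial.C (X 1) := finSuccEquiv_X_succ (j := 1)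
    simp only [Sf, map_add, map_sub, map_mul, map_pow, map_neg, map_ofNat, finSuccEquiv_X_zero,
      h1, h2, hL, hT]
    ring
  rw [e]
  have hLev : eval ![1, -2] L = (330 : Ω) := by simp [hL]; norm_num
  have hL0 : L ≠ 0 := by
    intro h; rw [h] at hLev; simp at hLev
  have hdeg : (Polynomial.C L * Polynomial.X ^ 5 + Polynomial.C T).degree = 5 := by
    rw [Polynomial.degree_add_C]
    · exact Polynomial.degree_C_mul_X_pow 5 hL0
    · rw [Polynomial.degree_C_mul_X_pow 5 hL0]; norm_num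
  have hnat : (Polynomial.C L * Polynomial.X ^ 5 + Polynomial.C T).natDegree = 5 :=
    Polynomial.natDegree_eq_of_degree_eq_some hdeg
  have hc5 : (Polynomial.C L * Polynomial.X ^ 5 + Polynomial.C T).coeff 5 = L := by
    simp
  have hc0 : (Polynomial.C L * Polynomial.X ^ 5 + Polynomial.C T).coeff 0 = T := by simp
  refine Polynomial.irreducible_of_eisenstein_criterion
    (P := RingHom.ker (eval (![1, -2] : Fin 2 → Ω))) (RingHom.ker_isPrime _) ?_ ?_ ?_ ?_ ?_
  · rw [Polynomial.leadingCoeff, hnat, hc5, RingHom.mem_ker, hLev]; norm_num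
  · intro n hn
    rw [hdeg] at hn
    have hn' : n < 5 := by exact_mod_cast hn
    rw [RingHom.mem_ker]
    rcases Nat.eq_zero_or_pos n with rfl | h0
    · rw [hc0]; simp [hT]; norm_num
    · have : (Polynomial.C L * Polynomial.X ^ 5 + Polynomial.C T).coeff n = 0 := by
        rw [Polynomial.coeff_add, Polynomial.coeff_C_mul_X_pow, Polynomial.coeff_C,
          if_neg (by omega), if_neg (by omega), add_zero]
      rw [this, map_zero]
  · rw [hdeg]; norm_num
  · rw [hc0]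
    intro h
    have := deriv_mem_pow (pderiv (1 : Fin 2)) _ 1 h
    rw [pow_one, RingHom.mem_ker] at this
    simp [hT, pderiv_X, Derivation.leibniz_pow, deriv_ofNat] at this
    norm_num at this
  · intro r hr
    rw [Polynomial.C_dvd_iff_dvd_coeff] at hr
    have h5 := hr 5
    have h0 := hr 0
    rw [hc5] at h5
    rw [hc0] at h0
    have hirr : Irreducible L := by
      apply irreducible_of_totalDegree_eq_one
      · have : L.IsHomogeneous 1 := by
          have a1 := (isHomogeneous_C (Fin 2) (134 : Ω)).mul (isHomogeneous_X Ω 0)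
          have a2 := (isHomogeneous_C (Fin 2) (98 : Ω)).mul (isHomogeneous_X Ω 1)
          simpa [hL, map_ofNat] using a1.sub a2
        exact this.totalDegree hL0
      · intro x hx
        by_contra hu
        have hx0 : x = 0 := by simpa using hu
        apply hL0
        ext d
        simpa [hx0] using hx d
    obtain ⟨s, hs⟩ := h5
    rcases hirr.isUnit_or_isUnit hs with h | h
    · exact h
    · exfalso
      obtain ⟨u, rfl⟩ := h
      have hr' : r = L * (↑u⁻¹ : MvPolynomial (Fin 2) Ω) := by rw [hs]; simp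
      have hd : L ∣ T := (Dvd.intro _ hr'.symm).trans h0
      obtain ⟨q, hq⟩ := hd
      have := congrArg (eval (![49, 67] : Fin 2 → Ω)) hq
      simp [hL, hT] at this
      norm_num at this

end Pool.Agent.MP_ddc23f_ag.H75
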