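import Mathlib

/-! Plane point sets, unexpected curves and free line arrangements. -/

namespace Pool.Agent.MP_ddc23f_ag.H75

open MvPolynomial

variable {k : Type} [Field k]

/-- The homogeneous ideal of a point of the projective plane: all polynomials vanishing on the
line through the origin of `k³` that the point stands for. -/
noncomputable def ptIdeal (P : Projectivization k (Fin 3 → k)) : Ideal (MvPolynomial (Fin 3) k) :=
  vanishingIdeal k (Set.range fun t : k => t • P.rep)

/-- The homogeneous ideal `I_Z` of a finite set of points. -/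
noncomputable def setIdeal (Z : Finset (Projectivization k (Fin 3 → k))) :
    Ideal (MvPolynomial (Fin 3) k) :=
  ⨅ z ∈ Z, ptIdeal z

/-- The ideal `I_{Z + mP} = I_Z ∩ I_P ^ m`. -/
noncomputable def fatIdeal (Z : Finset (Projectivization k (Fin 3 → k))) (m : ℕ)
    (P : Projectivization k (Fin 3 → k)) : Ideal (MvPolynomial (Fin 3) k) :=
  setIdeal Z ⊓ ptIdeal P ^ m

/-- The degree `d` part `[I]_d` of an ideal. -/
noncomputable def degPart (I : Ideal (MvPolynomial (Fin 3) k)) (d : ℕ) :
    Submodule k (MvPolynomial (Fin 3) k) :=
  I.restrictScalars k ⊓ homogeneousSubmodule (Fin 3) k d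

/-- A property holds for a general point: it holds off some plane curve. -/
def General (Φ : Projectivization k (Fin 3 → k) → Prop) : Prop :=
  ∃ (G : MvPolynomial (Fin 3) k) (n : ℕ), G ≠ 0 ∧ G.IsHomogeneous n ∧
    ∀ P : Projectivization k (Fin 3 → k), eval P.rep G ≠ 0 → Φ P

/-- `Z` admits an unexpected curve of degree `d` with multiplicity `m` at a general point. -/
def Unexpected (Z : Finset (Projectivization k (Fin 3 → k))) (d m : ℕ) : Prop :=
  General fun P =>
    max 0 ((Module.finrank k (degPart (setIdeal Z) d) : ℤ) - ((m + 1).choose 2 : ℕ)) <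
      (Module.finrank k (degPart (fatIdeal Z m P) d) : ℤ)

/-- `Z'` shares the unexpected curve of degree `d` and multiplicity `m` of `Z`. -/
def Shares (Z Z' : Finset (Projectivization k (Fin 3 → k))) (d m : ℕ) : Prop :=
  Unexpected Z' d m ∧
    General fun P => degPart (fatIdeal Z' m P) d = degPart (fatIdeal Z m P) d

/-- The defining polynomial of the dual line arrangement. -/
noncomputable def dualPoly (Z : Finset (Projectivization k (Fin 3 → k))) :
    MvPolynomial (Fin 3) k :=
  ∏ z ∈ Z, ∑ i, C (z.rep i) * X i

/-- The module of logarithmic derivations of the dual arrangement. -/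
noncomputable def logDer (Z : Finset (Projectivization k (Fin 3 → k))) :
    Submodule (MvPolynomial (Fin 3) k)
      (Derivation k (MvPolynomial (Fin 3) k) (MvPolynomial (Fin 3) k)) where
  carrier := {θ | dualPoly Z ∣ θ (dualPoly Z)}
  zero_mem' := by simp
  add_mem' := by
    intro a b ha hb
    simpa using dvd_add ha hb
  smul_mem' := by
    intro c x hx
    simpa using dvd_mul_of_dvd_right hx c

/-- The dual arrangement is free. -/
def DualFree (Z : Finset (Projectivization k (Fin 3 → k))) : Prop :=
  Module.Free (MvPolynomial (Fin 3) k) (logDer Z)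

end Pool.Agent.MP_ddc23f_ag.H75
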