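import Pool.Agent.MP_ddc23f_ag.H75.Special

/-! Irreducibility of the septic for a general point. -/

namespace Pool.Agent.MP_ddc23f_ag.H75

open MvPolynomial IsLocalRing

variable {k : Type} [Field k]

lemma no_factor_K [CharZero k] {K : Type} [Field K] (φ : MvPolynomial (Fin 3) k →+* K)
    (hφ : Function.Injective φ) (F H : MvPolynomial (Fin 3) K) (hF : 1 ≤ F.totalDegree)
    (hH : 1 ≤ H.totalDegree) (h : F * H = Qp fun i => φ (X i)) : False := by
  let ψ := φ.rangeRestrict
  have hψ : Function.Bijective ψ :=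
    ⟨fun x y e => hφ (congrArg Subtype.val e), φ.rangeRestrict_surjective⟩
  let J : Ideal (MvPolynomial (Fin 3) k) := RingHom.ker (eval ![0, 1, 2])
  have hJ : J.map ψ ≠ ⊤ := by
    intro ht
    have h1 : (1 : φ.range) ∈ J.map ψ := ht ▸ Submodule.mem_top
    obtain ⟨x, hx, e⟩ := (Ideal.mem_map_iff_of_surjective ψ hψ.2).mp h1
    have : x = 1 := hψ.1 (by rw [e, map_one])
    rw [this, RingHom.mem_ker, map_one] at hx
    exact one_ne_zero hx
  obtain ⟨V, hV1, hV2⟩ := Ideal.image_subset_nonunits_valuationSubring _ hJ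
  have hmem : ∀ G, φ G ∈ V := fun G => hV1 ⟨G, rfl⟩
  let ρ : MvPolynomial (Fin 3) k →+* V := φ.codRestrict V.toSubring hmem
  have hres : ∀ G ∈ J, residue V (ρ G) = 0 := by
    intro G hG
    rw [residue_eq_zero_iff, ← ValuationSubring.coe_mem_nonunits_iff]
    exact hV2 ⟨ψ G, Ideal.mem_map_of_mem ψ hG, rfl⟩
  have : CharZero (ResidueField V) :=
    RingHom.charZero_iff (ϕ := (residue V).comp (ρ.comp C)) (RingHom.injective _) |>.mp
      inferInstance
  refine no_factor_V V (ρ (X 0)) (ρ (X 1)) (ρ (X 2)) ?_ ?_ ?_ ?_ F H hF hH ?_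
  · exact hres _ (by simp [J, RingHom.mem_ker])
  · have := hres (X 1 - 1) (by simp [J, RingHom.mem_ker])
    rw [map_sub, map_sub, map_one, map_one] at this
    exact sub_eq_zero.mp this
  · have := hres (X 2 - 2) (by simp [J, RingHom.mem_ker])
    rw [map_sub, map_sub, map_ofNat, map_ofNat] at this
    exact sub_eq_zero.mp this
  · intro h0
    have : φ (X 0) = φ 0 := by rw [map_zero]; exact congrArg Subtype.val h0
    exact X_ne_zero _ (hφ this)
  · rw [h]; congr 1; ext i; fin_cases i <;> rfl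

/-- Gluing a family of polynomials of bounded degree to a polynomial over the product ring. -/
lemma exists_glue {ι : Type} (F : ι → MvPolynomial (Fin 3) k) (e : ℕ)
    (hF : ∀ i, (F i).totalDegree ≤ e) :
    ∃ G : MvPolynomial (Fin 3) (ι → k), G.totalDegree ≤ e ∧
      ∀ i, MvPolynomial.map (Pi.evalRingHom (fun _ => k) i) G = F i := by
  classical
  have hfin : {d : Fin 3 →₀ ℕ | d.degree ≤ e}.Finite := Finsupp.finite_of_degree_le e
  refine ⟨∑ d ∈ hfin.toFinset, monomial d fun i => coeff d (F i), ?_, fun i => ?_⟩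
  · refine totalDegree_finsetSum_le fun d hd => (totalDegree_monomial_le _ _).trans ?_
    simpa [Finsupp.degree_apply, Finsupp.sum] using hd
  · ext d
    rw [coeff_map, coeff_sum]
    simp only [coeff_monomial, Finset.sum_ite_eq', Set.Finite.mem_toFinset, Set.mem_ofPred_eq]
    split_ifs with hd
    · rfl
    · rw [map_zero]
      symm
      apply coeff_eq_zero_of_totalDegree_lt
      have := hF i
      rw [Finsupp.degree_apply] at hd
      omega

lemma pi_ext {ι : Type} (F G : MvPolynomial (Fin 3) (ι → k))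
    (h : ∀ i, MvPolynomial.map (Pi.evalRingHom (fun _ => k) i) F =
      MvPolynomial.map (Pi.evalRingHom (fun _ => k) i) G) : F = G := by
  ext d i
  have := congrArg (coeff d) (h i)
  rwa [coeff_map, coeff_map] at this

lemma general_no_factor [CharZero k] (e : ℕ) (h1 : 1 ≤ e) (h6 : e ≤ 6) :
    ∃ G : MvPolynomial (Fin 3) k, G ≠ 0 ∧ ∀ p, eval p G ≠ 0 →
      ∀ F H : MvPolynomial (Fin 3) k, F.totalDegree ≤ e → H.totalDegree ≤ 7 - e →
        F * H ≠ Qp p := by
  by_contra hc
  push Not at hc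
  let ι := {G : MvPolynomial (Fin 3) k // G ≠ 0}
  choose p hp F H hF hH hFH using fun i : ι => hc i.1 i.2
  obtain ⟨F', hF1, hF2⟩ := exists_glue F e hF
  obtain ⟨H', hH1, hH2⟩ := exists_glue H (7 - e) hH
  let φ : MvPolynomial (Fin 3) k →+* (ι → k) := RingHom.pi fun i => eval (p i)
  have hprod : F' * H' = Qp fun j => φ (X j) := by
    apply pi_ext
    intro i
    rw [map_mul, hF2, hH2, hFH, map_Qp]
    congr 1; ext j; simp [φ]
  have hdisj : Disjoint ((⊥ : Ideal (ι → k)) : Set (ι → k))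
      ((nonZeroDivisors (MvPolynomial (Fin 3) k)).map φ) := by
    rw [Set.disjoint_left]
    rintro x hx ⟨G, hG, rfl⟩
    have hG0 : G ≠ 0 := nonZeroDivisors.ne_zero hG
    have : φ G = 0 := hx
    exact hp ⟨G, hG0⟩ (congrFun this ⟨G, hG0⟩)
  obtain ⟨q, hq, -, hq2⟩ := Ideal.exists_le_prime_disjoint _ _ hdisj
  let K := FractionRing ((ι → k) ⧸ q)
  let π : (ι → k) →+* K := (algebraMap ((ι → k) ⧸ q) K).comp (Ideal.Quotient.mk q)
  have hinj : Function.Injective (π.comp φ) := by
    rw [injective_iff_map_eq_zero]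
    intro G hG
    by_contra h0
    have a1 : Ideal.Quotient.mk q (φ G) = 0 :=
      (IsFractionRing.injective ((ι → k) ⧸ q) K) (by rw [map_zero]; exact hG)
    rw [Ideal.Quotient.eq_zero_iff_mem] at a1
    exact Set.disjoint_left.mp hq2 a1 ⟨G, mem_nonZeroDivisors_of_ne_zero h0, rfl⟩
  have hK : MvPolynomial.map π F' * MvPolynomial.map π H' = Qp fun j => (π.comp φ) (X j) := by
    rw [← map_mul, hprod, map_Qp]; rfl
  have hQ0 : (Qp fun j => (π.comp φ) (X j)) ≠ 0 := by
    rw [← map_Qp]
    intro h0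
    have a1 := map_injective _ hinj (h0.trans (map_zero _).symm)
    have a2 := congrArg (fun w => eval ![1, 2, 0]
      (MvPolynomial.map (eval (![0, 1, 2] : Fin 3 → k)) w)) a1
    simp only [map_Qp, eval_Qp, map_zero] at a2
    simp [Qf] at a2
    norm_num at a2
  have a := left_ne_zero_of_mul (hK ▸ hQ0)
  have b := right_ne_zero_of_mul (hK ▸ hQ0)
  have d7 := totalDegree_mul_of_isDomain a b
  rw [hK, (Qp_hom _).totalDegree hQ0] at d7
  have l1 := totalDegree_map_le' π F'
  have l2 := totalDegree_map_le' π H'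
  exact no_factor_K (π.comp φ) hinj _ _ (by omega) (by omega) hK

lemma general_irreducible [CharZero k] :
    ∃ G : MvPolynomial (Fin 3) k, G ≠ 0 ∧ ∀ p, eval p G ≠ 0 → Qp p ≠ 0 → Irreducible (Qp p) := by
  choose G hG0 hG using fun e : Fin 6 =>
    general_no_factor (k := k) (e.1 + 1) (by omega) (by omega)
  refine ⟨∏ e, G e, Finset.prod_ne_zero_iff.mpr fun e _ => hG0 e, fun p hp hQ => ?_⟩
  rw [map_prod, Finset.prod_ne_zero_iff] at hp
  have d7 := (Qp_hom p).totalDegree hQ
  have hunit : ∀ F : MvPolynomial (Fin 3) k, F ≠ 0 → F.totalDegree = 0 → IsUnit F := by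
    intro F h0 hd
    rw [totalDegree_eq_zero_iff_eq_C] at hd
    rw [hd]
    refine IsUnit.map C (isUnit_iff_ne_zero.mpr fun h => h0 ?_)
    rw [hd, h, map_zero]
  refine ⟨fun hu => ?_, fun F H hFH => ?_⟩
  · have := totalDegree_le_of_dvd_of_isDomain hu.dvd (one_ne_zero (α := MvPolynomial (Fin 3) k))
    rw [d7] at this
    simp at this
  · have a : F ≠ 0 := left_ne_zero_of_mul (hFH ▸ hQ)
    have b : H ≠ 0 := right_ne_zero_of_mul (hFH ▸ hQ)
    have d := totalDegree_mul_of_isDomain a b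
    rw [← hFH, d7] at d
    by_contra hc
    push Not at hc
    have c1 : F.totalDegree ≠ 0 := fun h => hc.1 (hunit F a h)
    have c2 : H.totalDegree ≠ 0 := fun h => hc.2 (hunit H b h)
    exact hG ⟨F.totalDegree - 1, by omega⟩ p (hp _ (Finset.mem_univ _)) F H
      (by simp only; omega) (by simp only; omega) hFH.symm

end Pool.Agent.MP_ddc23f_ag.H75
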