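import Pool.Agent.MP_ddc23f_ag.H75.Basic

/-! A basis of a free module of logarithmic derivations has determinant dividing the defining
polynomial. -/

namespace Pool.Agent.MP_ddc23f_ag.H75

open MvPolynomial

variable {k : Type} [Field k]

/-- The linear form with coefficient vector `a`. -/
noncomputable def lin (a : Fin 3 → k) : MvPolynomial (Fin 3) k := ∑ i, C (a i) * X i

lemma lin_hom (a : Fin 3 → k) : (lin a).IsHomogeneous 1 :=
  IsHomogeneous.sum _ _ _ fun i _ => by
    simpa using (isHomogeneous_C (Fin 3) (a i)).mul (isHomogeneous_X k i)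

lemma eval_lin (a p : Fin 3 → k) : eval p (lin a) = ∑ i, a i * p i := by simp [lin]

lemma eval_lin_single (a : Fin 3 → k) (j : Fin 3) : eval (Pi.single j 1) (lin a) = a j := by
  rw [eval_lin]; simp [Pi.single_apply]

lemma lin_ne {a : Fin 3 → k} (ha : a ≠ 0) : lin a ≠ 0 := by
  intro h
  apply ha
  ext j
  rw [← eval_lin_single a j, h]; simp

lemma lin_prime {a : Fin 3 → k} (ha : a ≠ 0) : Prime (lin a) := by
  apply Irreducible.prime
  apply irreducible_of_totalDegree_eq_one ((lin_hom a).totalDegree (lin_ne ha))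
  intro x hx
  by_contra hu
  have hx0 : x = 0 := by simpa using hu
  apply lin_ne ha
  ext d
  simpa [hx0] using hx d

lemma not_lin_dvd {z z' : Projectivization k (Fin 3 → k)} (h : z ≠ z') :
    ¬ lin z.rep ∣ lin z'.rep := by
  rintro ⟨q, hq⟩
  have h1 := lin_ne z.rep_nonzero
  have h2 := lin_ne z'.rep_nonzero
  have hq0 : q ≠ 0 := right_ne_zero_of_mul (hq ▸ h2)
  have d := totalDegree_mul_of_isDomain h1 hq0
  rw [← hq, (lin_hom _).totalDegree h1, (lin_hom _).totalDegree h2] at d
  have d0 : q.totalDegree = 0 := by omega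
  rw [totalDegree_eq_zero_iff_eq_C] at d0
  apply h
  rw [← z.mk_rep, ← z'.mk_rep, eq_comm, Projectivization.mk_eq_mk_iff']
  refine ⟨coeff 0 q, ?_⟩
  ext j
  have := congrArg (eval (Pi.single j 1)) hq
  rw [map_mul, eval_lin_single, eval_lin_single, d0, eval_C] at this
  rw [this, Pi.smul_apply, smul_eq_mul, mul_comm]

lemma dualPoly_eq (Z : Finset (Projectivization k (Fin 3 → k))) :
    dualPoly Z = ∏ z ∈ Z, lin z.rep := rfl

lemma dualPoly_ne (Z : Finset (Projectivization k (Fin 3 → k))) : dualPoly Z ≠ 0 :=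
  Finset.prod_ne_zero_iff.mpr fun z _ => lin_ne z.rep_nonzero

lemma dualPoly_hom (Z : Finset (Projectivization k (Fin 3 → k))) :
    (dualPoly Z).IsHomogeneous Z.card := by
  have := IsHomogeneous.prod Z (fun z => lin z.rep) (fun _ => 1) fun z _ => lin_hom z.rep
  simpa [dualPoly_eq] using this

lemma split_dual {Z : Finset (Projectivization k (Fin 3 → k))} {z : Projectivization k (Fin 3 → k)}
    (hz : z ∈ Z) : ∃ g, dualPoly Z = lin z.rep * g ∧ ¬ lin z.rep ∣ g := by
  classical
  refine ⟨∏ w ∈ Z.erase z, lin w.rep, (Finset.mul_prod_erase Z (fun w => lin w.rep) hz).symm, ?_⟩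
  intro h
  obtain ⟨w, hw, hd⟩ := ((lin_prime z.rep_nonzero).dvd_finsetProd_iff _).mp h
  exact not_lin_dvd (Finset.ne_of_mem_erase hw).symm hd

lemma deriv_lin (θ : Derivation k (MvPolynomial (Fin 3) k) (MvPolynomial (Fin 3) k))
    (a : Fin 3 → k) : θ (lin a) = ∑ i, C (a i) * θ (X i) := by
  simp [lin, map_sum, Derivation.leibniz, derivation_C]

lemma tangent_of_mem {Z : Finset (Projectivization k (Fin 3 → k))}
    {θ : Derivation k (MvPolynomial (Fin 3) k) (MvPolynomial (Fin 3) k)} (hθ : θ ∈ logDer Z)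
    {z : Projectivization k (Fin 3 → k)} (hz : z ∈ Z) (p : Fin 3 → k)
    (hp : ∑ i, z.rep i * p i = 0) : ∑ i, z.rep i * eval p (θ (X i)) = 0 := by
  obtain ⟨g, hg, hn⟩ := split_dual hz
  have h1 : dualPoly Z ∣ θ (dualPoly Z) := hθ
  have h2 : lin z.rep ∣ θ (lin z.rep * g) := (Dvd.intro _ hg.symm).trans (hg ▸ h1)
  rw [Derivation.leibniz, smul_eq_mul, smul_eq_mul] at h2
  have h3 : lin z.rep ∣ g * θ (lin z.rep) := (dvd_add_right (Dvd.intro _ rfl)).mp h2
  obtain ⟨q, hq⟩ := ((lin_prime z.rep_nonzero).dvd_or_dvd h3).resolve_left hn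
  have := congrArg (eval p) hq
  rw [map_mul, eval_lin, hp, zero_mul, deriv_lin] at this
  simpa using this

/-- The constant vector field with components `n`. -/
noncomputable def cst (n : Fin 3 → k) :
    Derivation k (MvPolynomial (Fin 3) k) (MvPolynomial (Fin 3) k) :=
  mkDerivation k fun i => C (n i)

lemma cst_X (n : Fin 3 → k) (i : Fin 3) : cst n (X i) = C (n i) := mkDerivation_X _ _ _

theorem saito (Z : Finset (Projectivization k (Fin 3 → k))) (hZ : DualFree Z) :
    ∃ B : Fin 3 → Derivation k (MvPolynomial (Fin 3) k) (MvPolynomial (Fin 3) k),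
      (∀ i, B i ∈ logDer Z) ∧ (Matrix.of fun i j => B i (X j)).det ∣ dualPoly Z := by
  have : Module.Free (MvPolynomial (Fin 3) k) (logDer Z) := hZ
  have hf0 := dualPoly_ne Z
  set f := dualPoly Z with hf
  let ev : logDer Z →ₗ[MvPolynomial (Fin 3) k] (Fin 3 → MvPolynomial (Fin 3) k) :=
    { toFun := fun θ i => θ.1 (X i)
      map_add' := fun a b => by ext i; simp
      map_smul' := fun c a => by ext i; simp }
  have hev : Function.Injective ev := fun a b h =>
    Subtype.ext (derivation_ext fun i => congrFun h i)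
  have : Module.Finite (MvPolynomial (Fin 3) k) (logDer Z) := Module.Finite.of_injective ev hev
  have mf : ∀ n, f • cst n ∈ logDer Z := fun n => Dvd.intro _ rfl
  have hrank : Module.finrank (MvPolynomial (Fin 3) k) (logDer Z) = 3 := by
    apply le_antisymm
    · simpa using LinearMap.finrank_le_finrank_of_injective hev
    · have li : LinearIndependent (MvPolynomial (Fin 3) k)
          fun i : Fin 3 => (⟨_, mf (Pi.single i 1)⟩ : logDer Z) := by
        apply LinearIndependent.of_comp ev
        refine Fintype.linearIndependent_iff.mpr fun g hg j => ?_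
        have := congrFun hg j
        simp only [Finset.sum_apply, Pi.smul_apply, Pi.zero_apply, Function.comp_apply,
          smul_eq_mul] at this
        simp only [ev, LinearMap.coe_mk, AddHom.coe_mk, Derivation.smul_apply, cst_X,
          smul_eq_mul] at this
        rw [Finset.sum_eq_single j (fun i _ hi => by simp [hi.symm])
          (by simp)] at this
        simpa [hf0] using this
      simpa using li.fintype_card_le_finrank
  let b := Module.finBasisOfFinrankEq (MvPolynomial (Fin 3) k) (logDer Z) hrank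
  refine ⟨fun i => (b i).1, fun i => (b i).2, ?_⟩
  set Δ := (Matrix.of fun i j => (b i).1 (X j)).det with hΔ
  have key : ∀ ψ : Fin 3 → logDer Z, Δ ∣ (Matrix.of fun i j => (ψ i).1 (X j)).det := by
    intro ψ
    have : (Matrix.of fun i j => (ψ i).1 (X j)) =
        (Matrix.of fun i l => b.repr (ψ i) l) * Matrix.of fun i j => (b i).1 (X j) := by
      ext1 i j
      have e := congrFun (congrArg ev (b.sum_repr (ψ i))) j
      simp only [map_sum, map_smul, Finset.sum_apply, Pi.smul_apply, smul_eq_mul] at e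
      rw [Matrix.mul_apply]
      exact e.symm
    rw [this, Matrix.det_mul]
    exact Dvd.intro_left _ rfl
  have h3 : Δ ∣ f ^ 3 := by
    have := key fun i => ⟨_, mf (Pi.single i 1)⟩
    simpa [Matrix.det_fin_three, cst_X, pow_succ] using this
  have hline : ∀ z ∈ Z, ¬ lin z.rep * lin z.rep ∣ Δ := by
    intro z hz hd
    obtain ⟨g, hg, hn⟩ := split_dual hz
    have mg : ∀ n : Fin 3 → k, ∑ i, z.rep i * n i = 0 → g • cst n ∈ logDer Z := by
      intro n hn
      change dualPoly Z ∣ (g • cst n) (dualPoly Z)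
      have e : cst n (lin z.rep) = 0 := by
        rw [deriv_lin]
        simp only [cst_X, ← map_mul, ← map_sum, hn, map_zero]
      refine ⟨cst n g, ?_⟩
      rw [hg, Derivation.smul_apply, Derivation.leibniz, e]
      simp only [smul_eq_mul]; ring
    have fin : ∀ t : k, t ≠ 0 → Δ ∣ f * g * g * C t → False := by
      intro t ht h
      have h1 : lin z.rep * lin z.rep ∣ lin z.rep * (g * g * g * C t) := by
        refine (hd.trans h).trans (dvd_of_eq ?_)
        rw [hf, hg]; ring
      have hp := lin_prime z.rep_nonzero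
      have h2 := (mul_dvd_mul_iff_left hp.ne_zero).mp h1
      rcases hp.dvd_or_dvd h2 with h | h
      · rcases hp.dvd_or_dvd h with h | h
        · rcases hp.dvd_or_dvd h with h | h <;> exact hn h
        · exact hn h
      · exact hp.not_isUnit (isUnit_of_dvd_unit h (IsUnit.map C (isUnit_iff_ne_zero.mpr ht)))
    set a := z.rep with ha
    have n01 := mg ![a 1, -a 0, 0] (by simp [Fin.sum_univ_three]; ring)
    have n02 := mg ![a 2, 0, -a 0] (by simp [Fin.sum_univ_three]; ring)
    have n12 := mg ![0, a 2, -a 1] (by simp [Fin.sum_univ_three]; ring)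
    have hne : a 0 ≠ 0 ∨ a 1 ≠ 0 ∨ a 2 ≠ 0 := by
      by_contra hc
      push Not at hc
      apply z.rep_nonzero
      ext i; fin_cases i
      · exact hc.1
      · exact hc.2.1
      · exact hc.2.2
    rcases hne with h | h | h
    · refine fin (a 0 * a 0) (mul_ne_zero h h) ((key ![⟨_, mf ![1, 0, 0]⟩, ⟨_, n01⟩, ⟨_, n02⟩]).trans
        (dvd_of_eq ?_))
      simp [Matrix.det_fin_three, cst_X]; ring
    · refine fin (a 1 * a 1) (mul_ne_zero h h) ((key ![⟨_, mf ![0, 1, 0]⟩, ⟨_, n01⟩, ⟨_, n12⟩]).trans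
        (dvd_of_eq ?_))
      simp [Matrix.det_fin_three, cst_X]; ring
    · refine fin (a 2 * a 2) (mul_ne_zero h h) ((key ![⟨_, mf ![0, 0, 1]⟩, ⟨_, n02⟩, ⟨_, n12⟩]).trans
        (dvd_of_eq ?_))
      simp [Matrix.det_fin_three, cst_X]; ring
  have hΔ0 : Δ ≠ 0 := ne_zero_of_dvd_ne_zero (pow_ne_zero 3 hf0) h3
  have hsq : Squarefree Δ := by
    rw [squarefree_iff_irreducible_sq_not_dvd_of_ne_zero hΔ0]
    intro q hq hd
    have hp := hq.prime
    have h1 : q ∣ f := hp.dvd_of_dvd_pow ((Dvd.intro _ rfl).trans (hd.trans h3))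
    obtain ⟨w, hw, hqw⟩ := (hp.dvd_finsetProd_iff _).mp h1
    have as := hq.associated_of_dvd (lin_prime w.rep_nonzero).irreducible hqw
    exact hline w hw ((as.mul_mul as).symm.dvd.trans hd)
  exact (hsq.dvd_pow_iff_dvd (by norm_num)).mp h3

end Pool.Agent.MP_ddc23f_ag.H75
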