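import Pool.Agent.MP_ddc23f_ag.H75.Config
import Pool.Agent.MP_ddc23f_ag.H75.Saito

/-! The dual arrangement of the configuration is not free. -/

namespace Pool.Agent.MP_ddc23f_ag.H75

open MvPolynomial

variable {k : Type} [Field k]

lemma transfer [CharZero k] {ζ : k} (hζ : IsPrimitiveRoot ζ 5) (P : Polynomial ℤ)
    (h : Polynomial.aeval ζ P = 0) : Polynomial.aeval (2 : ZMod 31) P = 0 := by
  have h1 := minpoly.isIntegrallyClosed_dvd (hζ.isIntegral (by norm_num)) h
  rw [← Polynomial.cyclotomic_eq_minpoly hζ (by norm_num)] at h1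
  obtain ⟨q, rfl⟩ := h1
  have : Fact (Nat.Prime 5) := ⟨by norm_num⟩
  rw [map_mul, Polynomial.cyclotomic_prime]
  have : Polynomial.aeval (2 : ZMod 31) (∑ i ∈ Finset.range 5, (Polynomial.X : Polynomial ℤ) ^ i)
      = 0 := by
    simp only [map_sum, map_pow, Polynomial.aeval_X]
    decide
  rw [this, zero_mul]

/-- Exponent pairs giving fifteen different points on a line of the arrangement. -/
def idx : Fin 15 → ℕ × ℕ :=
  ![(0, 1), (1, 0), (1, 1), (1, 2), (1, 3), (1, 4), (2, 1), (2, 3), (2, 4), (3, 1), (3, 2), (3, 4),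
    (4, 1), (4, 2), (4, 3)]

lemma idx_mod : ∀ s t : Fin 15, s ≠ t →
    ((2 : ZMod 31) ^ (idx s).2 - 1) * (1 - 2 ^ (idx t).1) -
      (2 ^ (idx t).2 - 1) * (1 - 2 ^ (idx s).1) ≠ 0 := by
  decide +kernel

lemma idx_cross [CharZero k] {ζ : k} (hζ : IsPrimitiveRoot ζ 5) (s t : Fin 15) (h : s ≠ t) :
    (ζ ^ (idx s).2 - 1) * (1 - ζ ^ (idx t).1) - (ζ ^ (idx t).2 - 1) * (1 - ζ ^ (idx s).1) ≠ 0 := by
  intro e
  apply idx_mod s t h
  have := transfer hζ ((Polynomial.X ^ (idx s).2 - 1) * (1 - Polynomial.X ^ (idx t).1) -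
    (Polynomial.X ^ (idx t).2 - 1) * (1 - Polynomial.X ^ (idx s).1)) (by simpa using e)
  simpa using this

lemma vanish_plane [Infinite k] {w : MvPolynomial (Fin 3) k} {N : ℕ} (hw : w.IsHomogeneous N)
    (hN : N ≤ 14) (u v : k) (y z : Fin 15 → k) (hc : ∀ s t, s ≠ t → y s * z t ≠ y t * z s)
    (h : ∀ s, eval ![-(u * y s + v * z s), y s, z s] w = 0) (a b : k) :
    eval ![-(u * a + v * b), a, b] w = 0 := by
  classical
  obtain ⟨τ, hτ⟩ := Infinite.exists_notMem_finset (Finset.univ.image fun s => z s / y s)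
  have hz : ∀ s, z s - τ * y s ≠ 0 := by
    intro s e
    by_cases hy : y s = 0
    · have hz0 : z s = 0 := by simpa [hy] using e
      obtain ⟨t, ht⟩ := exists_ne s
      exact hc s t ht.symm (by rw [hy, hz0]; ring)
    · apply hτ
      refine Finset.mem_image.mpr ⟨s, Finset.mem_univ _, ?_⟩
      field_simp
      linear_combination e
  let L : Polynomial k := Polynomial.C τ * Polynomial.X + Polynomial.C 1
  let g : Fin 3 → Polynomial k :=
    ![Polynomial.C (-(u + v * τ)) * Polynomial.X + Polynomial.C (-v), Polynomial.X, L]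
  have hg : ∀ r : k, (aeval g w).eval r = eval ![-(u * r + v * (τ * r + 1)), r, τ * r + 1] w := by
    intro r
    have e : (fun i => (Polynomial.aeval r) (g i)) =
        ![-(u * r + v * (τ * r + 1)), r, τ * r + 1] := by
      ext i
      fin_cases i <;> simp [g, L]
      ring
    rw [← Polynomial.coe_aeval_eq_eval, ← AlgHom.comp_apply, comp_aeval, e]
    rfl
  have scale : ∀ a b : k, b - τ * a ≠ 0 →
      eval ![-(u * a + v * b), a, b] w = (b - τ * a) ^ N * (aeval g w).eval (a / (b - τ * a)) := by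
    intro a b hab
    rw [hg, ← eval_smul_hom hw]
    have hm := mul_div_cancel₀ a hab
    generalize a / (b - τ * a) = r at hm
    congr 2
    ext i
    fin_cases i <;> simp
    · linear_combination (u + v * τ) * hm
    · linear_combination -hm
    · linear_combination -τ * hm
  have h0 : aeval g w = 0 := by
    refine Polynomial.eq_zero_of_natDegree_lt_card_of_eval_eq_zero _
      (f := fun s : Fin 15 => y s / (z s - τ * y s)) (fun s t e => ?_) (fun s => ?_) ?_
    · by_contra hst
      apply hc s t hst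
      have := (div_eq_div_iff (hz s) (hz t)).mp e
      linear_combination this
    · have := scale _ _ (hz s)
      rw [h s] at this
      exact (mul_eq_zero.mp this.symm).resolve_left (pow_ne_zero _ (hz s))
    · have := aeval_natDegree_le w (m := 14) (n := 1) (hw.totalDegree_le.trans hN) g (fun i => by
        fin_cases i
        · exact Polynomial.natDegree_linear_le
        · exact Polynomial.natDegree_X_le
        · exact Polynomial.natDegree_linear_le)
      simp only [Fintype.card_fin]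
      omega
  let ρ : MvPolynomial (Fin 2) k := aeval ![-(C u * X 0 + C v * X 1), X 0, X 1] w
  have hρ : ∀ q : Fin 2 → k, eval q ρ = eval ![-(u * q 0 + v * q 1), q 0, q 1] w := by
    intro q
    rw [← coe_aeval_eq_eval, ← coe_aeval_eq_eval]
    change aeval q (aeval _ w) = aeval _ w
    rw [← AlgHom.comp_apply, comp_aeval]
    congr 2
    ext i
    fin_cases i <;> simp
  have hprod : (X 1 - C τ * X 0) * ρ = 0 := by
    apply MvPolynomial.funext
    intro q
    rw [map_mul, hρ, map_zero]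
    by_cases hq : q 1 - τ * q 0 = 0
    · simp [hq]
    · rw [scale _ _ hq, h0]; simp
  have hne : (X 1 - C τ * X 0 : MvPolynomial (Fin 2) k) ≠ 0 := by
    intro e
    simpa using congrArg (eval ![0, 1]) e
  have := hρ ![a, b]
  rw [(mul_eq_zero.mp hprod).resolve_left hne] at this
  simpa using this.symm

lemma zero_of_planes [Infinite k] {ζ : k} (hζ : IsPrimitiveRoot ζ 5) {w : MvPolynomial (Fin 3) k}
    (hw : w.totalDegree ≤ 14)
    (h : ∀ (i j : ℕ) (a b : k), eval ![-(ζ ^ i * a + ζ ^ j * b), a, b] w = 0) : w = 0 := by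
  apply (finSuccEquiv k 2).injective
  rw [map_zero]
  refine Polynomial.eq_zero_of_natDegree_lt_card_of_eval_eq_zero _
    (f := fun s : Fin 5 × Fin 5 => -(C (ζ ^ (s.1 : ℕ)) * X 0 + C (ζ ^ (s.2 : ℕ)) * X 1))
    (fun s t e => ?_) (fun s => ?_) ?_
  · have e0 := congrArg (eval ![1, 0]) e
    have e1 := congrArg (eval ![0, 1]) e
    simp at e0 e1
    exact Prod.ext (Fin.ext (hζ.pow_inj s.1.2 t.1.2 e0)) (Fin.ext (hζ.pow_inj s.2.2 t.2.2 e1))
  · apply MvPolynomial.funext
    intro q
    rw [← Polynomial.eval₂_at_apply, ← Polynomial.eval_map, ← eval_eq_eval_mv_eval', map_zero,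
      ← h s.1 s.2 (q 0) (q 1)]
    congr 2
    ext i
    fin_cases i
    · simp
    · rfl
    · rfl
  · rw [natDegree_finSuccEquiv]
    have := degreeOf_le_totalDegree w 0
    simp only [Fintype.card_prod, Fintype.card_fin]
    omega

lemma low_parallel [CharZero k] {ζ : k} (hζ : IsPrimitiveRoot ζ 5)
    {θ : Derivation k (MvPolynomial (Fin 3) k) (MvPolynomial (Fin 3) k)} (hθ : θ ∈ logDer (Zc ζ))
    (n : ℕ) (hn : n ≤ 13) (p : Fin 3 → k) :
    eval p (homogeneousComponent n (θ (X 1))) * p 0 = eval p (homogeneousComponent n (θ (X 0))) * p 1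
    ∧ eval p (homogeneousComponent n (θ (X 2))) * p 0 =
      eval p (homogeneousComponent n (θ (X 0))) * p 2 := by
  set A := homogeneousComponent n (θ (X 0))
  set B := homogeneousComponent n (θ (X 1))
  set D := homogeneousComponent n (θ (X 2))
  have hA : A.IsHomogeneous n := homogeneousComponent_isHomogeneous _ _
  have hB : B.IsHomogeneous n := homogeneousComponent_isHomogeneous _ _
  have hD : D.IsHomogeneous n := homogeneousComponent_isHomogeneous _ _
  have h5 : ∀ i : ℕ, (ζ ^ i) ^ 5 = 1 := fun i => by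
    rw [← pow_mul, mul_comm, pow_mul, hζ.pow_eq_one, one_pow]
  have T : ∀ (u v : k), u ^ 5 = 1 → v ^ 5 = 1 → ∀ q : Fin 3 → k, q 0 + u * q 1 + v * q 2 = 0 →
      eval q A + u * eval q B + v * eval q D = 0 := by
    intro u v hu hv q hq
    obtain ⟨i, hi, rfl⟩ := hζ.eq_pow_of_pow_eq_one hu
    obtain ⟨j, hj, rfl⟩ := hζ.eq_pow_of_pow_eq_one hv
    obtain ⟨t, ht, e⟩ := rep_mk _ (vec_ne ζ (Sum.inl (⟨i, hi⟩, ⟨j, hj⟩)))
    have := comp_eval_zero q (θ (X 0) + C (ζ ^ i) * θ (X 1) + C (ζ ^ j) * θ (X 2)) (fun s => by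
      have := tangent_of_mem hθ (mem_Zc.mpr ⟨Sum.inl (⟨i, hi⟩, ⟨j, hj⟩), rfl⟩) (s • q) (by
        rw [e]; simp [vec, Fin.sum_univ_three]; linear_combination (t * s) * hq)
      rw [e] at this
      simp [vec, Fin.sum_univ_three] at this
      apply mul_left_cancel₀ ht
      simp only [map_add, map_mul, eval_C]
      linear_combination this) n
    simpa only [map_add, homogeneousComponent_C_mul, map_mul, eval_C] using this
  have hz : ∀ i : ℕ, ζ ^ i ≠ 0 := fun i => pow_ne_zero _ (hζ.ne_zero (by norm_num))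
  have lam : ∀ (i j : ℕ) (a b : k),
      eval ![-(ζ ^ i * a + ζ ^ j * b), a, b] (B * X 2 - D * X 1) = 0 := by
    intro i j
    refine vanish_plane (N := n + 1) ((hB.mul (isHomogeneous_X k 2)).sub
      (hD.mul (isHomogeneous_X k 1))) (by omega) (ζ ^ i) (ζ ^ j)
      (fun s => (ζ ^ (idx s).2 - 1) * ζ ^ j) (fun s => (1 - ζ ^ (idx s).1) * ζ ^ i) ?_ ?_
    · intro s t hst e
      apply mul_ne_zero (mul_ne_zero (hz i) (hz j)) (idx_cross hζ s t hst)
      linear_combination e
    · intro s
      set q : Fin 3 → k := ![-(ζ ^ i * ((ζ ^ (idx s).2 - 1) * ζ ^ j) +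
        ζ ^ j * ((1 - ζ ^ (idx s).1) * ζ ^ i)), (ζ ^ (idx s).2 - 1) * ζ ^ j,
        (1 - ζ ^ (idx s).1) * ζ ^ i] with hq
      have t1 := T (ζ ^ i) (ζ ^ j) (h5 i) (h5 j) q (by simp [hq])
      have t2 := T (ζ ^ i * ζ ^ (idx s).1) (ζ ^ j * ζ ^ (idx s).2) (by rw [mul_pow, h5, h5, mul_one])
        (by rw [mul_pow, h5, h5, mul_one]) q (by simp [hq]; ring)
      have q1 : q 1 = (ζ ^ (idx s).2 - 1) * ζ ^ j := by simp [hq]
      have q2 : q 2 = (1 - ζ ^ (idx s).1) * ζ ^ i := by simp [hq]
      simp only [map_sub, map_mul, eval_X, q1, q2]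
      linear_combination t1 - t2
  have w1 : B * X 0 - A * X 1 = 0 := by
    refine zero_of_planes hζ (((hB.mul (isHomogeneous_X k 0)).sub
      (hA.mul (isHomogeneous_X k 1))).totalDegree_le.trans (by omega)) fun i j a b => ?_
    have l := lam i j a b
    have t := T (ζ ^ i) (ζ ^ j) (h5 i) (h5 j) ![-(ζ ^ i * a + ζ ^ j * b), a, b] (by simp)
    simp only [map_sub, map_mul, eval_X, Matrix.cons_val] at l ⊢
    linear_combination (-(ζ ^ j)) * l - a * t
  have w2 : D * X 0 - A * X 2 = 0 := by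
    refine zero_of_planes hζ (((hD.mul (isHomogeneous_X k 0)).sub
      (hA.mul (isHomogeneous_X k 2))).totalDegree_le.trans (by omega)) fun i j a b => ?_
    have l := lam i j a b
    have t := T (ζ ^ i) (ζ ^ j) (h5 i) (h5 j) ![-(ζ ^ i * a + ζ ^ j * b), a, b] (by simp)
    simp only [map_sub, map_mul, eval_X, Matrix.cons_val] at l ⊢
    linear_combination (ζ ^ i) * l - b * t
  have e1 := congrArg (eval p) w1
  have e2 := congrArg (eval p) w2
  simp only [map_sub, map_mul, eval_X, map_zero] at e1 e2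
  exact ⟨sub_eq_zero.mp e1, sub_eq_zero.mp e2⟩

theorem not_free [CharZero k] {ζ : k} (hζ : IsPrimitiveRoot ζ 5) : ¬ DualFree (Zc ζ) := by
  intro hZ
  obtain ⟨B, hB, q, hq⟩ := saito _ hZ
  have hprod : X 0 * dualPoly (Zc ζ) = 0 := by
    apply MvPolynomial.funext
    intro p
    rw [map_mul, eval_X, map_zero]
    by_cases hp : p 0 = 0
    · simp [hp]
    rw [mul_eq_zero]; right
    have row : ∀ i, ∃ m g1 g2 : Polynomial k, sig p (B i (X 0)) = Polynomial.X * m ∧
        sig p (B i (X 1)) = Polynomial.C (p 1 / p 0) * (Polynomial.X * m) + Polynomial.X ^ 14 * g1 ∧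
        sig p (B i (X 2)) = Polynomial.C (p 2 / p 0) * (Polynomial.X * m) + Polynomial.X ^ 14 * g2 := by
      intro i
      have a0 : Polynomial.X ∣ sig p (B i (X 0)) := by
        rw [Polynomial.X_dvd_iff, coeff_sig]
        have := (low_parallel hζ (hB i) 0 (by omega) ![0, 1, 0]).1
        simpa [homogeneousComponent_zero] using this.symm
      have a1 : Polynomial.X ^ 14 ∣ sig p (B i (X 1)) - Polynomial.C (p 1 / p 0) * sig p (B i (X 0)) := by
        rw [Polynomial.X_pow_dvd_iff]
        intro n hn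
        have := (low_parallel hζ (hB i) n (by omega) p).1
        rw [Polynomial.coeff_sub, Polynomial.coeff_C_mul, coeff_sig, coeff_sig]
        field_simp
        linear_combination this
      have a2 : Polynomial.X ^ 14 ∣ sig p (B i (X 2)) - Polynomial.C (p 2 / p 0) * sig p (B i (X 0)) := by
        rw [Polynomial.X_pow_dvd_iff]
        intro n hn
        have := (low_parallel hζ (hB i) n (by omega) p).2
        rw [Polynomial.coeff_sub, Polynomial.coeff_C_mul, coeff_sig, coeff_sig]
        field_simp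
        linear_combination this
      obtain ⟨m, hm⟩ := a0
      obtain ⟨g1, h1⟩ := a1
      obtain ⟨g2, h2⟩ := a2
      exact ⟨m, g1, g2, hm, by rw [← hm, ← h1]; ring, by rw [← hm, ← h2]; ring⟩
    obtain ⟨m0, g0, h0, a0, b0, c0⟩ := row 0
    obtain ⟨m1, g1, h1, a1, b1, c1⟩ := row 1
    obtain ⟨m2, g2, h2, a2, b2, c2⟩ := row 2
    have e := congrArg (sig p) hq
    rw [sig_hom p (dualPoly_hom _), map_mul, Matrix.det_fin_three] at e
    simp only [Matrix.of_apply, map_add, map_sub, map_mul, a0, b0, c0, a1, b1, c1, a2, b2, c2] at e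
    have hd : Polynomial.X ^ 29 ∣
        Polynomial.C (eval p (dualPoly (Zc ζ))) * Polynomial.X ^ (Zc ζ).card := by
      refine ⟨(m0 * (g1 * h2 - h1 * g2) - m1 * (g0 * h2 - h0 * g2) + m2 * (g0 * h1 - h0 * g1))
        * sig p q, ?_⟩
      rw [e]; ring
    rw [Polynomial.X_pow_dvd_iff] at hd
    have := hd (Zc ζ).card (by have := card_Zc ζ; omega)
    simpa using this
  exact mul_ne_zero (X_ne_zero _) (dualPoly_ne _) hprod

end Pool.Agent.MP_ddc23f_ag.H75
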