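import Pool.Agent.MP_ddc23f_ag.H75.Mult
import Pool.Agent.MP_ddc23f_ag.H75.Irred
import Pool.Agent.MP_ddc23f_ag.H75.NonFree

/-! The counterexample. -/

namespace Pool.Agent.MP_ddc23f_ag.H75

open MvPolynomial

variable {k : Type} [Field k]

/-- Coefficients of the septic. -/
def qc (p : Fin 3 → k) : Fin 9 → k :=
  ![5 * p 0 ^ 4 * p 1 * p 2, 5 * p 0 * p 1 ^ 4 * p 2, 5 * p 0 * p 1 * p 2 ^ 4,
    -(p 2 * (3 * p 1 ^ 5 + 2 * p 2 ^ 5)), -(p 2 * (3 * p 0 ^ 5 + 2 * p 2 ^ 5)),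
    -(p 1 * (3 * p 0 ^ 5 + 2 * p 1 ^ 5)), -(p 1 * (3 * p 2 ^ 5 + 2 * p 1 ^ 5)),
    -(p 0 * (3 * p 1 ^ 5 + 2 * p 0 ^ 5)), -(p 0 * (3 * p 2 ^ 5 + 2 * p 0 ^ 5))]

lemma Qp_eq (p : Fin 3 → k) : Qp p = Gp (qc p) := by
  simp only [Qp, Qf, Gp, Gf, qc, Matrix.cons_val, map_neg, map_mul, map_add, map_pow, map_ofNat]
  ring

/-- The parametrization of the septics as a linear map. -/
noncomputable def Glin : (Fin 9 → k) →ₗ[k] MvPolynomial (Fin 3) k where
  toFun := Gp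
  map_add' a b := by simp only [Gp, Gf, Pi.add_apply, map_add]; ring
  map_smul' t a := by
    simp only [Gp, Gf, Pi.smul_apply, smul_eq_mul, map_mul, RingHom.id_apply, smul_eq_C_mul]; ring

lemma finrank_IZ [Infinite k] {ζ : k} (hζ : IsPrimitiveRoot ζ 5) :
    Module.finrank k (degPart (setIdeal (Zc ζ)) 7) ≤ 9 := by
  have h : degPart (setIdeal (Zc ζ)) 7 ≤ LinearMap.range (Glin (k := k)) := fun F hF => by
    obtain ⟨c, hc⟩ := exists_Gp hζ hF
    exact ⟨c, hc.symm⟩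
  refine (Submodule.finrank_mono h).trans ?_
  simpa using LinearMap.finrank_range_le (Glin (k := k))

lemma Qp_ne [CharZero k] {p : Fin 3 → k} (h0 : p 0 ≠ 0) (h1 : p 1 ≠ 0) (h2 : p 2 ≠ 0) :
    Qp p ≠ 0 := by
  intro h
  have e : ∀ x : k, Qf (p 0) (p 1) (p 2) x 1 0 = 0 := fun x => by
    have := congrArg (eval ![x, 1, 0]) h
    rw [eval_Qp] at this
    simpa using this
  have e1 := e 1
  have e2 := e (-1)
  have e3 := e 2
  have e4 := e (-2)
  simp only [Qf] at e1 e2 e3 e4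
  have : (600 : k) * (p 0 ^ 4 * p 1 * p 2) = 0 := by
    linear_combination 64 * (e1 + e2) - (e3 + e4)
  simp [h0, h1, h2] at this

lemma Qp_mem {ζ : k} (hζ : IsPrimitiveRoot ζ 5) {p : Fin 3 → k} (h0 : p 0 ≠ 0) :
    Qp p ∈ degPart (setIdeal (Zc ζ) ⊓ vecIdeal p ^ 4) 7 :=
  mem_degPart.mpr ⟨⟨Qp_mem_IZ hζ p, Qp_mem_pow p h0⟩, Qp_hom p⟩

theorem general_unique [CharZero k] {ζ : k} (hζ : IsPrimitiveRoot ζ 5) :
    General fun P : Projectivization k (Fin 3 → k) =>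
      Module.finrank k (degPart (fatIdeal (Zc ζ) 4 P) 7) = 1 ∧
        ∀ F ∈ degPart (fatIdeal (Zc ζ) 4 P) 7, F ≠ 0 → Irreducible F := by
  obtain ⟨G, hG0, hG⟩ := general_irreducible (k := k)
  have hdet : (Mf (X 0) (X 1) (X 2) : Matrix (Fin 8) (Fin 8) (MvPolynomial (Fin 3) k)).det ≠ 0 := by
    intro h
    have := eval_det_Mf (k := k) ![1, 1, -1]
    rw [h, map_zero] at this
    exact Mf_det_ne (by simpa using this.symm)
  refine general_of_poly (fun p => Module.finrank k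
      (degPart (setIdeal (Zc ζ) ⊓ vecIdeal p ^ 4) 7) = 1 ∧
      ∀ F ∈ degPart (setIdeal (Zc ζ) ⊓ vecIdeal p ^ 4) 7, F ≠ 0 → Irreducible F)
    (X 0 * X 1 * X 2 * (Mf (X 0) (X 1) (X 2)).det * G)
    (mul_ne_zero (mul_ne_zero (mul_ne_zero (mul_ne_zero (X_ne_zero _) (X_ne_zero _))
      (X_ne_zero _)) hdet) hG0) (fun p hp => ?_)
    (fun p t ht h => by rwa [vecIdeal_smul p ht] at h)
  simp only [map_mul, eval_X, eval_det_Mf, ne_eq, mul_eq_zero, not_or] at hp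
  obtain ⟨⟨⟨⟨h0, h1⟩, h2⟩, h3⟩, h4⟩ := hp
  have hQ := Qp_ne h0 h1 h2
  have hm := Qp_mem hζ h0
  have mult : ∀ F ∈ degPart (setIdeal (Zc ζ) ⊓ vecIdeal p ^ 4) 7, ∃ t : k, t • Qp p = F := by
    intro F hF
    obtain ⟨⟨a1, a2⟩, a3⟩ := mem_degPart.mp hF
    obtain ⟨c, rfl⟩ := exists_Gp hζ (mem_degPart.mpr ⟨a1, a3⟩)
    have q0 : qc p 0 ≠ 0 := by simp [qc, h0, h1, h2]
    refine ⟨c 0 / qc p 0, ?_⟩
    have e : Gp (c - (c 0 / qc p 0) • qc p) = Gp c - (c 0 / qc p 0) • Qp p := by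
      rw [Qp_eq]
      exact (map_sub Glin _ _).trans (by rw [map_smul]; rfl)
    have := Gp_zero_of h3 (c - (c 0 / qc p 0) • qc p) (by simp [q0]) (by
      rw [e, smul_eq_C_mul]
      exact sub_mem a2 (Ideal.mul_mem_left _ _ (Qp_mem_pow p h0)))
    rw [e] at this
    exact (sub_eq_zero.mp this).symm
  refine ⟨?_, fun F hF hF0 => ?_⟩
  · rw [finrank_eq_one_iff_of_nonzero' (⟨_, hm⟩ : degPart _ 7) (fun h => hQ (congrArg Subtype.val h))]
    intro w
    obtain ⟨t, ht⟩ := mult w.1 w.2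
    exact ⟨t, Subtype.ext ht⟩
  · obtain ⟨t, rfl⟩ := mult F hF
    have ht : t ≠ 0 := by rintro rfl; simp at hF0
    rw [smul_eq_C_mul, irreducible_isUnit_mul (IsUnit.map C (isUnit_iff_ne_zero.mpr ht))]
    exact hG p h4 hQ

theorem unexpected [CharZero k] {ζ : k} (hζ : IsPrimitiveRoot ζ 5) : Unexpected (Zc ζ) 7 4 := by
  refine (general_unique hζ).mono fun P hP => ?_
  have := finrank_IZ hζ
  rw [hP.1]
  have e : (4 + 1).choose 2 = 10 := by decide
  rw [e]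
  omega

theorem maximal [CharZero k] {ζ : k} (hζ : IsPrimitiveRoot ζ 5)
    (Z' : Finset (Projectivization k (Fin 3 → k)))
    (h : General fun P => degPart (fatIdeal Z' 4 P) 7 = degPart (fatIdeal (Zc ζ) 4 P) 7) :
    Z' ⊆ Zc ζ := by
  intro w hw
  obtain ⟨G, n, hG0, hGn, hG⟩ := h
  set x := w.rep 0 with hx
  set y := w.rep 1 with hy
  set z := w.rep 2 with hz
  let R : MvPolynomial (Fin 3) k := Qf (X 0) (X 1) (X 2) (C x) (C y) (C z)
  have hR : ∀ p, eval p R = Qf (p 0) (p 1) (p 2) x y z := fun p => by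
    simp only [R, map_Qf, eval_X, eval_C]
  have hprod : X 0 * G * R = 0 := by
    apply MvPolynomial.funext
    intro p
    rw [map_mul, map_mul, eval_X, map_zero, hR]
    by_cases h0 : p 0 = 0
    · simp [h0]
    by_cases h1 : eval p G = 0
    · simp [h1]
    have hp : p ≠ 0 := fun e => h0 (by rw [e]; rfl)
    obtain ⟨t, ht, e⟩ := rep_mk p hp
    have a := hG (Projectivization.mk k p hp) (by
      rw [e, eval_smul_hom hGn]; exact mul_ne_zero (pow_ne_zero _ ht) h1)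
    have b : Qp p ∈ degPart (fatIdeal Z' 4 (Projectivization.mk k p hp)) 7 := by
      rw [a, fatIdeal, ptIdeal_mk]; exact Qp_mem hζ h0
    have c := eval_of_mem_vecIdeal (mem_setIdeal.mp (mem_degPart.mp b).1.1 w hw)
    rw [eval_Qp] at c
    rw [c, mul_zero]
  have hR0 : R = 0 := (mul_eq_zero.mp hprod).resolve_left (mul_ne_zero (X_ne_zero _) hG0)
  have E : ∀ a b c : k, Qf a b c x y z = 0 := fun a b c => by
    have := hR ![a, b, c]
    rw [hR0] at this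
    simpa using this.symm
  have e1 : x ^ 2 * (y ^ 5 - z ^ 5) = 0 := by
    have := E 1 1 1; have := E 1 (-1) 1; have := E 1 1 (-1); have := E 1 (-1) (-1)
    have := E 0 1 1; have := E 0 (-1) 1; have := E 0 1 (-1); have := E 0 (-1) (-1)
    simp only [Qf] at *
    grind
  have e2 : y ^ 2 * (z ^ 5 - x ^ 5) = 0 := by
    have := E 1 1 1; have := E (-1) 1 1; have := E 1 1 (-1); have := E (-1) 1 (-1)
    have := E 1 0 1; have := E (-1) 0 1; have := E 1 0 (-1); have := E (-1) 0 (-1)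
    simp only [Qf] at *
    grind
  have e3 : z ^ 2 * (x ^ 5 - y ^ 5) = 0 := by
    have := E 1 1 1; have := E (-1) 1 1; have := E 1 (-1) 1; have := E (-1) (-1) 1
    have := E 1 1 0; have := E (-1) 1 0; have := E 1 (-1) 0; have := E (-1) (-1) 0
    simp only [Qf] at *
    grind
  have fin : ∀ (j) (t : k), w.rep = t • vec ζ j → w ∈ Zc ζ := by
    intro j t e
    refine mem_Zc.mpr ⟨j, ?_⟩
    rw [← w.mk_rep, eq_comm, Projectivization.mk_eq_mk_iff']
    exact ⟨t, e.symm⟩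
  by_cases x0 : x = 0
  · by_cases y0 : y = 0
    · refine fin (Sum.inr 2) z ?_
      ext i; fin_cases i <;> simp [vec, ← hx, ← hy, ← hz, x0, y0]
    · have z0 : z = 0 := by simpa [x0, y0] using e2
      refine fin (Sum.inr 1) y ?_
      ext i; fin_cases i <;> simp [vec, ← hx, ← hy, ← hz, x0, z0]
  · have a1 : y ^ 5 = z ^ 5 := by simpa [x0, sub_eq_zero] using e1
    by_cases y0 : y = 0
    · have z0 : z = 0 := by simpa [y0] using a1.symm
      refine fin (Sum.inr 0) x ?_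
      ext i; fin_cases i <;> simp [vec, ← hx, ← hy, ← hz, y0, z0]
    · have a2 : z ^ 5 = x ^ 5 := by simpa [y0, sub_eq_zero] using e2
      have u5 : (y / x) ^ 5 = 1 := by rw [div_pow, a1, a2, div_self (pow_ne_zero _ x0)]
      have v5 : (z / x) ^ 5 = 1 := by rw [div_pow, a2, div_self (pow_ne_zero _ x0)]
      obtain ⟨i, hi, ei⟩ := hζ.eq_pow_of_pow_eq_one u5
      obtain ⟨j, hj, ej⟩ := hζ.eq_pow_of_pow_eq_one v5
      refine fin (Sum.inl (⟨i, hi⟩, ⟨j, hj⟩)) x ?_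
      ext l; fin_cases l <;> simp [vec, ← hx, ← hy, ← hz, ei, ej] <;> field_simp

end Pool.Agent.MP_ddc23f_ag.H75
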