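import Pool.Agent.MP_ddc23f_ag.H75.Config

/-! The fourfold point: existence and uniqueness of the septic. -/

namespace Pool.Agent.MP_ddc23f_ag.H75

open MvPolynomial

lemma Qf_shift {R : Type} [CommRing R] (a b c x u v : R) :
    Qf a b c (a * x) (b * x + u) (c * x + v) =
      u ^ 4 * ((-5) * a ^ 6 * b ^ 2 * c * x ^ 3 + (-4) * a ^ 6 * b * c * x ^ 2 * u + (-1) * a ^ 6 * c * x * u ^ 2 +
      (5) * a * b ^ 2 * c ^ 6 * x ^ 3 + (4) * a * b * c ^ 6 * x ^ 2 * u + (1) * a * c ^ 6 * x * u ^ 2) +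
      u ^ 3 * v * ((10) * a ^ 6 * b ^ 3 * x ^ 3 + (15) * a ^ 6 * b ^ 2 * x ^ 2 * u + (9) * a ^ 6 * b * x * u ^ 2 +
      (2) * a ^ 6 * u ^ 3 + (-10) * a * b ^ 3 * c ^ 5 * x ^ 3 + (10) * a * b ^ 2 * c ^ 5 * x ^ 2 * u +
      (11) * a * b * c ^ 5 * x * u ^ 2 + (3) * a * c ^ 5 * u ^ 3) +
      u ^ 2 * v ^ 2 * ((-50) * a * b ^ 3 * c ^ 4 * x ^ 2 * u + (-25) * a * b ^ 2 * c ^ 4 * x * u ^ 2 + (-5) * a * b * c ^ 4 * u ^ 3) +
      u * v ^ 3 * ((-10) * a ^ 6 * c ^ 3 * x ^ 3 + (10) * a * b ^ 5 * c ^ 3 * x ^ 3 + (50) * a * b ^ 4 * c ^ 3 * x ^ 2 * u) +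
      v ^ 4 * ((5) * a ^ 6 * b * c ^ 2 * x ^ 3 + (4) * a ^ 6 * b * c * x ^ 2 * v + (1) * a ^ 6 * b * x * v ^ 2 +
      (-15) * a ^ 6 * c ^ 2 * x ^ 2 * u + (-9) * a ^ 6 * c * x * u * v + (-2) * a ^ 6 * u * v ^ 2 +
      (-5) * a * b ^ 6 * c ^ 2 * x ^ 3 + (-4) * a * b ^ 6 * c * x ^ 2 * v + (-1) * a * b ^ 6 * x * v ^ 2 +
      (-10) * a * b ^ 5 * c ^ 2 * x ^ 2 * u + (-11) * a * b ^ 5 * c * x * u * v + (-3) * a * b ^ 5 * u * v ^ 2 +
      (25) * a * b ^ 4 * c ^ 2 * x * u ^ 2 + (5) * a * b ^ 4 * c * u ^ 2 * v) := by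
  simp only [Qf]; ring

lemma Qf_scale {R : Type} [CommRing R] (a b c t x y z : R) :
    Qf a b c (t * x) (t * y) (t * z) = t ^ 7 * Qf a b c x y z := by
  simp only [Qf]; ring

variable {k : Type} [Field k]

lemma Qp_mem_pow (p : Fin 3 → k) (hp : p 0 ≠ 0) : Qp p ∈ vecIdeal p ^ 4 := by
  set I := vecIdeal p
  set u : MvPolynomial (Fin 3) k := C (p 0) * X 1 - C (p 1) * X 0 with hu
  set v : MvPolynomial (Fin 3) k := C (p 0) * X 2 - C (p 2) * X 0 with hv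
  have mu : u ∈ I := mem_vecIdeal.mpr fun t => by simp [hu]; ring
  have mv : v ∈ I := mem_vecIdeal.mpr fun t => by simp [hv]; ring
  have m : ∀ i j : ℕ, i + j = 4 → u ^ i * v ^ j ∈ I ^ 4 := fun i j h => by
    rw [← h, pow_add]
    exact Ideal.mul_mem_mul (Ideal.pow_mem_pow mu i) (Ideal.pow_mem_pow mv j)
  have e := Qf_shift (C (p 0)) (C (p 1)) (C (p 2)) (X 0) u v
  have e1 : C (p 1) * X 0 + u = C (p 0) * X 1 := by rw [hu]; ring
  have e2 : C (p 2) * X 0 + v = C (p 0) * X 2 := by rw [hv]; ring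
  rw [e1, e2, Qf_scale] at e
  have h7 : C (p 0) ^ 7 * Qp p ∈ I ^ 4 := by
    rw [Qp, e]
    refine add_mem (add_mem (add_mem (add_mem ?_ ?_) ?_) ?_) ?_ <;> apply Ideal.mul_mem_right
    · simpa using m 4 0 rfl
    · simpa using m 3 1 rfl
    · exact m 2 2 rfl
    · simpa using m 1 3 rfl
    · simpa using m 0 4 rfl
  have : Qp p = C ((p 0)⁻¹ ^ 7) * (C (p 0) ^ 7 * Qp p) := by
    rw [← mul_assoc, ← map_pow, ← map_mul, ← mul_pow, inv_mul_cancel₀ hp]; simp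
  rw [this]
  exact Ideal.mul_mem_left _ _ h7

lemma third_zero {p : Fin 3 → k} {F : MvPolynomial (Fin 3) k} (h : F ∈ vecIdeal p ^ 4)
    (i j l : Fin 3) : eval p (pderiv i (pderiv j (pderiv l F))) = 0 := by
  have := deriv_mem_pow (pderiv i) _ 1 (deriv_mem_pow (pderiv j) _ 2 (deriv_mem_pow (pderiv l) _ 3 h))
  rw [pow_one] at this
  exact eval_of_mem_vecIdeal this

/-- Eight of the third order conditions on the last eight coefficients. -/
def Mf {R : Type} [CommRing R] (a b c : R) : Matrix (Fin 8) (Fin 8) R :=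
  !![-40 * a ^ 3 * b, 0, -30 * a ^ 4, 0, 0, 0, -20 * a ^ 3 * c, 20 * a ^ 3 * c;
     0, 40 * a ^ 3 * c, 0, 0, 0, 30 * a ^ 4, -20 * a ^ 3 * b, 20 * a ^ 3 * b;
     -10 * a ^ 4, 0, 0, 30 * b ^ 4, 20 * b ^ 3 * c, -20 * b ^ 3 * c, 0, 0;
     0, 0, 5 * c ^ 4, -5 * c ^ 4, 5 * b ^ 4, -5 * b ^ 4, -5 * a ^ 4, 5 * a ^ 4;
     0, 10 * a ^ 4, 20 * b * c ^ 3, -20 * b * c ^ 3, -30 * c ^ 4, 0, 0, 0;
     0, -60 * b ^ 2 * c ^ 2, 0, 120 * a * b ^ 3, 60 * a * b ^ 2 * c, -60 * a * b ^ 2 * c, 0, -120 * b ^ 3 * c;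
     10 * c ^ 4, -40 * b ^ 3 * c, 0, 0, 20 * a * b ^ 3, -20 * a * b ^ 3, 0, -30 * b ^ 4;
     40 * b * c ^ 3, -10 * b ^ 4, 20 * a * c ^ 3, -20 * a * c ^ 3, 0, 0, 30 * c ^ 4, 0]

lemma Mf_det_ne [CharZero k] : (Mf (1 : k) 1 (-1)).det ≠ 0 := by
  intro h
  obtain ⟨v, hv, e⟩ := Matrix.exists_mulVec_eq_zero_iff.mpr h
  apply hv
  have e0 := congrFun e 0
  have e1 := congrFun e 1
  have e2 := congrFun e 2
  have e3 := congrFun e 3
  have e4 := congrFun e 4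
  have e5 := congrFun e 5
  have e6 := congrFun e 6
  have e7 := congrFun e 7
  simp [Mf, Matrix.mulVec, dotProduct, Fin.sum_univ_eight] at e0 e1 e2 e3 e4 e5 e6 e7
  ext i
  fin_cases i
  · simp only [Pi.zero_apply]
    show v 0 = 0
    linear_combination (-1 / 40) * e0 + (1 / 120) * e1 + (-1 / 40) * e2 + (-1 / 12) * e3 + (1 / 120) * e4 + (1 / 120) * e6 + (1 / 120) * e7
  · simp only [Pi.zero_apply]
    show v 1 = 0
    linear_combination (1 / 10) * e0 + (-1 / 20) * e1 + (-1 / 20) * e4 + (1 / 40) * e5 + (-1 / 10) * e7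
  · simp only [Pi.zero_apply]
    show v 2 = 0
    linear_combination (-11 / 300) * e0 + (-1 / 100) * e1 + (11 / 300) * e2 + (1 / 30) * e3 + (-1 / 100) * e4 + (-1 / 100) * e5 + (-1 / 60) * e6 + (7 / 300) * e7
  · simp only [Pi.zero_apply]
    show v 3 = 0
    linear_combination (-37 / 600) * e0 + (19 / 600) * e1 + (7 / 600) * e2 + (1 / 60) * e3 + (19 / 600) * e4 + (-1 / 100) * e5 + (1 / 40) * e6 + (13 / 200) * e7
  · simp only [Pi.zero_apply]
    show v 4 = 0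
    linear_combination (1 / 60) * e0 + (1 / 90) * e1 + (-1 / 60) * e2 + (-1 / 90) * e3 + (-1 / 45) * e4 + (1 / 120) * e5 + (1 / 36) * e6 + (-1 / 180) * e7
  · simp only [Pi.zero_apply]
    show v 5 = 0
    linear_combination (29 / 300) * e0 + (-29 / 900) * e1 + (1 / 300) * e2 + (-7 / 90) * e3 + (-59 / 900) * e4 + (7 / 300) * e5 + (-1 / 180) * e6 + (-89 / 900) * e7
  · simp only [Pi.zero_apply]
    show v 6 = 0
    linear_combination (1 / 60) * e0 + (-1 / 30) * e1 + (-1 / 60) * e2 + (-1 / 10) * e3 + (-1 / 30) * e4 + (1 / 120) * e5 + (-1 / 60) * e6 + (-1 / 60) * e7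
  · simp only [Pi.zero_apply]
    show v 7 = 0
    linear_combination (43 / 600) * e0 + (-7 / 200) * e1 + (-13 / 600) * e2 + (1 / 60) * e3 + (-7 / 200) * e4 + (7 / 300) * e5 + (-1 / 120) * e6 + (-41 / 600) * e7

lemma eval_det_Mf (p : Fin 3 → k) :
    eval p (Mf (X 0) (X 1) (X 2) : Matrix (Fin 8) (Fin 8) (MvPolynomial (Fin 3) k)).det =
      (Mf (p 0) (p 1) (p 2)).det := by
  rw [RingHom.map_det]
  congr 1
  ext i j
  fin_cases i <;> fin_cases j <;> simp [Mf]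

lemma Gp_zero_of {p : Fin 3 → k} (hp : (Mf (p 0) (p 1) (p 2)).det ≠ 0) (c : Fin 9 → k)
    (h0 : c 0 = 0) (h : Gp c ∈ vecIdeal p ^ 4) : Gp c = 0 := by
  have e0 := third_zero h 0 0 1
  have e1 := third_zero h 0 0 2
  have e2 := third_zero h 0 1 1
  have e3 := third_zero h 0 1 2
  have e4 := third_zero h 0 2 2
  have e5 := third_zero h 1 1 1
  have e6 := third_zero h 1 1 2
  have e7 := third_zero h 1 2 2
  simp [Gp, Gf, h0, pderiv_X, Derivation.leibniz_pow, deriv_ofNat] at e0 e1 e2 e3 e4 e5 e6 e7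
  have hv : (Mf (p 0) (p 1) (p 2)).mulVec (fun i => c i.succ) = 0 := by
    ext i
    fin_cases i <;> simp [Mf, Matrix.mulVec, dotProduct, Fin.sum_univ_eight]
    · linear_combination e0
    · linear_combination e1
    · linear_combination e2
    · linear_combination e3
    · linear_combination e4
    · linear_combination e5
    · linear_combination e6
    · linear_combination e7
  have hz := Matrix.eq_zero_of_mulVec_eq_zero hp hv
  have : c = 0 := by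
    ext i
    refine Fin.cases h0 (fun j => congrFun hz j) i
  rw [this]
  simp [Gp, Gf]

end Pool.Agent.MP_ddc23f_ag.H75
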