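import Pool.Agent.MP_ddc23f_ag.H75.Curve

/-! Specialization of a factorization along a valuation ring. -/

namespace Pool.Agent.MP_ddc23f_ag.H75

open MvPolynomial IsLocalRing

lemma totalDegree_map_le' {R S σ : Type} [CommRing R] [CommRing S] (φ : R →+* S)
    (F : MvPolynomial σ R) : (MvPolynomial.map φ F).totalDegree ≤ F.totalDegree :=
  Finset.sup_mono (support_map_subset φ F)

lemma totalDegree_map_inj {R S σ : Type} [CommRing R] [CommRing S] (φ : R →+* S)
    (hφ : Function.Injective φ) (F : MvPolynomial σ R) :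
    (MvPolynomial.map φ F).totalDegree = F.totalDegree := by
  unfold totalDegree
  rw [support_map_of_injective F hφ]

lemma eval_of_degree_le_one {R : Type} [CommRing R] (F : MvPolynomial (Fin 3) R)
    (hF : F.totalDegree ≤ 1) : ∃ f0 f1 f2 f3 : R,
      F = C f0 + C f1 * X 0 + C f2 * X 1 + C f3 * X 2 := by
  have h1 : homogeneousComponent 1 F ∈ homogeneousSubmodule (Fin 3) R 1 :=
    homogeneousComponent_mem 1 F
  rw [homogeneousSubmodule_one_eq_span_X, Submodule.mem_span_range_iff_exists_fun] at h1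
  obtain ⟨c, hc⟩ := h1
  refine ⟨coeff 0 F, c 0, c 1, c 2, ?_⟩
  have h2 : F = homogeneousComponent 0 F + homogeneousComponent 1 F := by
    conv_lhs => rw [← sum_homogeneousComponent F]
    rcases Nat.le_one_iff_eq_zero_or_eq_one.mp hF with h | h
    · rw [h, homogeneousComponent_eq_zero 1 F (by omega)]; simp
    · rw [h]; simp [Finset.sum_range_succ]
  rw [homogeneousComponent_zero, ← hc, Fin.sum_univ_three] at h2
  simp only [smul_eq_C_mul] at h2
  rw [add_assoc, add_assoc, ← add_assoc (C (c 0) * X 0)]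
  exact h2

variable {K : Type} [Field K]

lemma normalize (V : ValuationSubring K) (F : MvPolynomial (Fin 3) K) (hF : F ≠ 0) :
    ∃ s : K, s ≠ 0 ∧ ∃ F' : MvPolynomial (Fin 3) V,
      MvPolynomial.map V.subtype F' = C s * F ∧ MvPolynomial.map (residue V) F' ≠ 0 := by
  classical
  obtain ⟨d0, hd0, hmax⟩ := Finset.exists_max_image F.support
    (fun d => V.valuation (coeff d F)) (support_nonempty.mpr hF)
  have h0 : coeff d0 F ≠ 0 := mem_support_iff.mp hd0
  have hv0 : V.valuation (coeff d0 F) ≠ 0 := by simpa using h0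
  have hmem : ∀ d, (coeff d0 F)⁻¹ * coeff d F ∈ V := by
    intro d
    by_cases hd : d ∈ F.support
    · rw [← V.valuation_le_one_iff, map_mul, map_inv₀, inv_mul_le_one₀ (zero_lt_iff.mpr hv0)]
      exact hmax d hd
    · rw [notMem_support_iff.mp hd, mul_zero]; exact V.zero_mem
  refine ⟨(coeff d0 F)⁻¹, inv_ne_zero h0,
    ∑ d ∈ F.support, monomial d (⟨_, hmem d⟩ : V), ?_, ?_⟩
  · rw [map_sum]
    generalize (coeff d0 F)⁻¹ = s at hmem
    conv_rhs => rw [F.as_sum, Finset.mul_sum]
    refine Finset.sum_congr rfl fun d _ => ?_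
    rw [map_monomial, C_mul_monomial]
    rfl
  · intro h
    have := congrArg (coeff d0) h
    rw [coeff_map, coeff_sum, Finset.sum_eq_single d0] at this
    · rw [coeff_monomial, if_pos rfl] at this
      have e : (⟨_, hmem d0⟩ : V) = 1 := Subtype.ext (inv_mul_cancel₀ h0)
      rw [e] at this
      simp at this
    · intro b _ hb
      rw [coeff_monomial, if_neg hb]
    · intro hn; exact absurd hd0 hn

lemma no_line (V : ValuationSubring K) [CharZero (ResidueField V)] (a b c : V)
    (ha : residue V a = 0) (hb : residue V b = 1) (hc : residue V c = 2) (ha0 : a ≠ 0)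
    (f0 f1 f2 f3 : V) (h0 : residue V f0 = 0) (h1 : residue V f1 ≠ 0) (h2 : residue V f2 = 0)
    (h3 : residue V f3 = 0)
    (h : ∀ x y z : V, f0 + f1 * x + f2 * y + f3 * z = 0 → Qf a b c x y z = 0) : False := by
  have hu : IsUnit f1 := (residue_ne_zero_iff_isUnit f1).mp h1
  obtain ⟨g, hg⟩ := hu.exists_right_inv
  have key : ∀ y z : V, Qf a b c (-(g * (f0 + f2 * y + f3 * z))) y z = 0 := fun y z =>
    h _ _ _ (by linear_combination (-(f0 + f2 * y + f3 * z)) * hg)
  have hres : ∀ y z : V, residue V (-(g * (f0 + f2 * y + f3 * z))) = 0 := fun y z => by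
    simp [h0, h2, h3]
  have cancel : ∀ x U : V, x * U = 0 → residue V U ≠ 0 → x = 0 := fun x U e hU =>
    (mul_eq_zero.mp e).resolve_right fun h' => hU (by rw [h', map_zero])
  have A : ∀ x y : V, residue V x = 0 → residue V y ≠ 0 → Qf a b c x y 0 = 0 → x = 0 := by
    intro x y hx hy e
    refine cancel x (y * c * ((3 * b ^ 5 + 2 * c ^ 5) * x ^ 5 - 5 * a * b ^ 4 * x ^ 4 * y
      + 5 * a ^ 4 * b * x * y ^ 4 - (3 * a ^ 5 + 2 * c ^ 5) * y ^ 5)) ?_ ?_
    · rw [← e]; simp only [Qf]; ring
    · simp only [map_mul, map_add, map_sub, map_pow, map_ofNat, ha, hb, hc, hx]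
      simp [hy]
  have B : ∀ x : V, residue V x = 0 → Qf a b c x 0 1 = 0 → x = 0 := by
    intro x hx e
    refine cancel x (b * (-(2 * b ^ 5 + 3 * c ^ 5) * x ^ 5 + 5 * a * c ^ 4 * x ^ 4
      - 5 * a ^ 4 * c * x + (3 * a ^ 5 + 2 * b ^ 5))) ?_ ?_
    · rw [← e]; simp only [Qf]; ring
    · simp only [map_mul, map_add, map_sub, map_pow, map_neg, map_ofNat, ha, hb, hc, hx]
      simp
  have e1 := A _ 1 (hres 1 0) (by simp) (key 1 0)
  have e2 := A _ 2 (hres 2 0) (by simp only [map_ofNat]; norm_num) (key 2 0)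
  have e3 := B _ (hres 0 1) (key 0 1)
  have e4 : -(g * (f0 + f2 * 1 + f3 * 1)) = 0 := by linear_combination e3 + e2 - e1
  have e5 := key 1 1
  rw [e4] at e5
  refine ha0 (cancel a ((2 * a ^ 5 + 3 * c ^ 5) - 5 * b * c ^ 4 + 5 * b ^ 4 * c
    - (2 * a ^ 5 + 3 * b ^ 5)) ?_ ?_)
  · rw [← e5]; simp only [Qf]; ring
  · simp only [map_mul, map_add, map_sub, map_pow, map_ofNat, ha, hb, hc]
    norm_num

lemma no_factor_core (V : ValuationSubring K) [CharZero (ResidueField V)] (a b c : V)
    (ha : residue V a = 0) (hb : residue V b = 1) (hc : residue V c = 2) (ha0 : a ≠ 0)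
    (F H : MvPolynomial (Fin 3) V) (u : K) (hu : u ≠ 0)
    (h : MvPolynomial.map V.subtype (F * H) = C u * MvPolynomial.map V.subtype (Qp ![a, b, c]))
    (w : ResidueField V) (hw : w ≠ 0)
    (h' : MvPolynomial.map (residue V) F * MvPolynomial.map (residue V) H =
      C w * (X 0 * Sf (X 0) (X 1) (X 2)))
    (hdeg : (MvPolynomial.map (residue V) F).totalDegree = F.totalDegree)
    (hpos : 1 ≤ F.totalDegree)
    (hS : Sf (X 0) (X 1) (X 2) ∣ MvPolynomial.map (residue V) H) : False := by
  obtain ⟨R, hR⟩ := hS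
  have hS0 := (Sf_irreducible (ResidueField V)).ne_zero
  have e : MvPolynomial.map (residue V) F * R = C w * X 0 := by
    apply mul_right_cancel₀ hS0
    rw [hR] at h'
    linear_combination h'
  have hne : (C w * X 0 : MvPolynomial (Fin 3) (ResidueField V)) ≠ 0 :=
    mul_ne_zero (by simpa using hw) (X_ne_zero _)
  have hd1 : (C w * X 0 : MvPolynomial (Fin 3) (ResidueField V)).totalDegree = 1 := by
    have : (C w * X 0 : MvPolynomial (Fin 3) (ResidueField V)).IsHomogeneous 1 := by
      simpa using (isHomogeneous_C (Fin 3) w).mul (isHomogeneous_X _ 0)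
    exact this.totalDegree hne
  have hF0 : MvPolynomial.map (residue V) F ≠ 0 := left_ne_zero_of_mul (e ▸ hne)
  have hR0 : R ≠ 0 := right_ne_zero_of_mul (e ▸ hne)
  have hsum := totalDegree_mul_of_isDomain hF0 hR0
  rw [e, hd1, hdeg] at hsum
  have hRd : R.totalDegree = 0 := by omega
  have hFd : F.totalDegree ≤ 1 := by omega
  rw [totalDegree_eq_zero_iff_eq_C] at hRd
  set r := coeff 0 R
  have hr : r ≠ 0 := fun h0 => hR0 (by rw [hRd, h0, map_zero])
  obtain ⟨f0, f1, f2, f3, hF⟩ := eval_of_degree_le_one F hFd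
  rw [hRd, hF] at e
  simp only [map_add, map_mul, map_C, map_X] at e
  have e0 := congrArg (eval ![0, 0, 0]) e
  have e1 := congrArg (eval ![1, 0, 0]) e
  have e2 := congrArg (eval ![0, 1, 0]) e
  have e3 := congrArg (eval ![0, 0, 1]) e
  simp [hr, -residue_eq_zero_iff] at e0
  simp [hr, e0, -residue_eq_zero_iff] at e1 e2 e3
  refine no_line V a b c ha hb hc ha0 f0 f1 f2 f3 e0 ?_ e2 e3 ?_
  · intro h1
    rw [h1, zero_mul] at e1
    exact hw e1.symm
  · intro x y z hz
    have hFz : eval ![x, y, z] F = 0 := by rw [hF]; simpa using hz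
    have := congrArg (eval fun i => V.subtype (![x, y, z] i)) h
    rw [map_mul (eval _), eval_C, eval_map, eval_map, ← coe_eval₂Hom] at this
    have t1 : ∀ G : MvPolynomial (Fin 3) V,
        eval₂Hom V.subtype (fun i => V.subtype (![x, y, z] i)) G = V.subtype (eval ![x, y, z] G) := by
      intro G
      rw [← eval₂_id, eval₂_comp_left]
      simp only [RingHom.comp_id, coe_eval₂Hom]
      rfl
    rw [t1, t1, map_mul (eval _), hFz, zero_mul, map_zero, eval_Qp] at this
    have t2 := (mul_eq_zero.mp this.symm).resolve_left hu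
    simpa using t2

lemma no_factor_V (V : ValuationSubring K) [CharZero (ResidueField V)] (a b c : V)
    (ha : residue V a = 0) (hb : residue V b = 1) (hc : residue V c = 2) (ha0 : a ≠ 0)
    (F H : MvPolynomial (Fin 3) K) (hF : 1 ≤ F.totalDegree) (hH : 1 ≤ H.totalDegree)
    (h : F * H = Qp ![(a : K), (b : K), (c : K)]) : False := by
  have hF0 : F ≠ 0 := by rintro rfl; simp at hF
  have hH0 : H ≠ 0 := by rintro rfl; simp at hH
  obtain ⟨s, hs, F', hF1, hF2⟩ := normalize V F hF0
  obtain ⟨t, ht, H', hH1, hH2⟩ := normalize V H hH0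
  have hinj : Function.Injective V.subtype := Subtype.val_injective
  have hQ : MvPolynomial.map V.subtype (Qp ![a, b, c]) = Qp ![(a : K), (b : K), (c : K)] := by
    rw [map_Qp]; congr 1; ext i; fin_cases i <;> rfl
  have hQr : MvPolynomial.map (residue V) (Qp ![a, b, c]) = X 0 * Sf (X 0) (X 1) (X 2) := by
    rw [map_Qp, ← Qf_special]
    simp [Qp, ha, hb, hc, map_ofNat]
  have hprod : MvPolynomial.map V.subtype (F' * H') =
      C (s * t) * MvPolynomial.map V.subtype (Qp ![a, b, c]) := by
    rw [map_mul, hF1, hH1, hQ, ← h, map_mul]; ring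
  have hst : s * t ≠ 0 := mul_ne_zero hs ht
  have hS0 := (Sf_irreducible (ResidueField V)).ne_zero
  have hQ0 : (X 0 * Sf (X 0) (X 1) (X 2) : MvPolynomial (Fin 3) (ResidueField V)) ≠ 0 :=
    mul_ne_zero (X_ne_zero _) hS0
  obtain ⟨w, hw, hres⟩ : ∃ w : ResidueField V, w ≠ 0 ∧
      MvPolynomial.map (residue V) F' * MvPolynomial.map (residue V) H' =
        C w * (X 0 * Sf (X 0) (X 1) (X 2)) := by
    rcases V.mem_or_inv_mem (s * t) with hm | hm
    · have e : F' * H' = C (⟨_, hm⟩ : V) * Qp ![a, b, c] := by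
        apply map_injective _ hinj
        rw [hprod, map_mul (MvPolynomial.map _), map_C]; rfl
      have e' := congrArg (MvPolynomial.map (residue V)) e
      rw [map_mul, map_mul, map_C, hQr] at e'
      refine ⟨_, fun h0 => ?_, e'⟩
      rw [h0, map_zero, zero_mul] at e'
      exact mul_ne_zero hF2 hH2 e'
    · have e : C (⟨_, hm⟩ : V) * (F' * H') = Qp ![a, b, c] := by
        apply map_injective _ hinj
        rw [map_mul (MvPolynomial.map _), hprod, map_C, ← mul_assoc, ← map_mul]
        have : V.subtype ⟨_, hm⟩ * (s * t) = 1 := inv_mul_cancel₀ hst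
        rw [this, map_one, one_mul]
      have e' := congrArg (MvPolynomial.map (residue V)) e
      rw [map_mul, map_mul, map_C, hQr] at e'
      have h0 : residue V ⟨_, hm⟩ ≠ 0 := by
        intro h0
        rw [h0, map_zero, zero_mul] at e'
        exact hQ0 e'.symm
      refine ⟨(residue V ⟨_, hm⟩)⁻¹, inv_ne_zero h0, ?_⟩
      rw [← e', ← mul_assoc, ← map_mul C, inv_mul_cancel₀ h0, map_one, one_mul]
  have dF : F'.totalDegree = F.totalDegree := by
    rw [← totalDegree_map_inj _ hinj, hF1, totalDegree_mul_of_isDomain (by simpa using hs) hF0]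
    simp
  have dH : H'.totalDegree = H.totalDegree := by
    rw [← totalDegree_map_inj _ hinj, hH1, totalDegree_mul_of_isDomain (by simpa using ht) hH0]
    simp
  have d7 : F.totalDegree + H.totalDegree = 7 := by
    rw [← totalDegree_mul_of_isDomain hF0 hH0, h]
    exact (Qp_hom _).totalDegree (h ▸ mul_ne_zero hF0 hH0)
  have d7' : (MvPolynomial.map (residue V) F').totalDegree +
      (MvPolynomial.map (residue V) H').totalDegree = 7 := by
    rw [← totalDegree_mul_of_isDomain hF2 hH2, hres,
      totalDegree_mul_of_isDomain (by simpa using hw) hQ0, totalDegree_C, zero_add, ← hQr, map_Qp]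
    refine (Qp_hom _).totalDegree ?_
    rw [← map_Qp, hQr]; exact hQ0
  have l1 := totalDegree_map_le' (residue V) F'
  have l2 := totalDegree_map_le' (residue V) H'
  have hprime := (Sf_irreducible (ResidueField V)).prime
  have hdvd : Sf (X 0) (X 1) (X 2) ∣
      MvPolynomial.map (residue V) F' * MvPolynomial.map (residue V) H' := by
    rw [hres]; exact Dvd.dvd.mul_left (Dvd.intro_left _ rfl) _
  rcases hprime.dvd_or_dvd hdvd with hd | hd
  · exact no_factor_core V a b c ha hb hc ha0 H' F' (s * t) hst (by rw [mul_comm H', hprod]) w hw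
      (by rw [mul_comm, hres]) (by omega) (by omega) hd
  · exact no_factor_core V a b c ha hb hc ha0 F' H' (s * t) hst hprod w hw hres (by omega)
      (by omega) hd

end Pool.Agent.MP_ddc23f_ag.H75
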